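import Pool.Agent.Helper56.MTC.DmVal

/-!
# Lie subalgebras of `so_2m` which contain the regular nilpotent element
-/

set_option autoImplicit false
set_option linter.unusedSectionVars false

namespace MTC

variable {K : Type} [Field K] {m : ℕ}

/-- the hypotheses in the standard basis -/
structure DStd (hm : 2 ≤ m) (g : Submodule K (Matrix (JD m) (JD m) K)) : Prop where
  br : ∀ X ∈ g, ∀ Y ∈ g, bk X Y ∈ g
  sk : ∀ X ∈ g, Sk X
  hN : upD (1 : Fin m → K) ∈ g
  hD : dg (degD m) ∈ g
  gen : ∀ U : Submodule K (JD m → K), (∀ X ∈ g, ∀ v ∈ U, X.mulVec v ∈ U) →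
    Pi.single (Sum.inl ⟨0, by omega⟩) 1 ∈ U → U = ⊤

theorem trace_sk [CharZero K] {X : Matrix (JD m) (JD m) K} (h : Sk X) : X.trace = 0 := by
  rw [Matrix.trace, Fintype.sum_sum_type]
  rw [← Finset.sum_add_distrib]
  apply Finset.sum_eq_zero
  intro i _
  simp only [Matrix.diag_apply]
  rw [h (Sum.inl i) (Sum.inl i), bar_inl, neg_add_cancel]

theorem DStd.std [CharZero K] {hm : 2 ≤ m} {g : Submodule K (Matrix (JD m) (JD m) K)}
    (S : DStd hm g) : Std (degD m) (Sum.inl ⟨0, by omega⟩) (upD 1) g where
  br := S.br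
  hN := S.hN
  homN := hom_upD hm _
  hD := S.hD
  top_le := by
    intro i hi
    cases i with
    | inl i =>
      have h1 : (i : ℕ) ≠ 0 := by
        intro h
        apply hi
        congr 1
        exact Fin.ext h
      simp only [degD_inl]
      omega
    | inr i =>
      have := i.2
      simp only [degD_inl, degD_inr]
      omega
  gen := S.gen
  tr := fun X hX => trace_sk (S.sk X hX)
  inj := fun k hk X hX h => injD hm k hk X hX h

def W1 (g : Submodule K (Matrix (JD m) (JD m) K)) : Submodule K (Fin m → K) where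
  carrier := {s | upD s ∈ g}
  add_mem' := by
    intro s t hs ht
    change upD (s + t) ∈ g
    rw [upD_add]
    exact g.add_mem hs ht
  zero_mem' := by
    have h := upD_smul (0 : K) (0 : Fin m → K)
    rw [zero_smul, zero_smul] at h
    change upD 0 ∈ g
    rw [h]
    exact g.zero_mem
  smul_mem' := by
    intro c s hs
    change upD (c • s) ∈ g
    rw [upD_smul]
    exact g.smul_mem c hs

def Wm (g : Submodule K (Matrix (JD m) (JD m) K)) : Submodule K (Fin m → K) where
  carrier := {s | dnD s ∈ g}
  add_mem' := by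
    intro s t hs ht
    change dnD (s + t) ∈ g
    rw [dnD_add]
    exact g.add_mem hs ht
  zero_mem' := by
    have h := dnD_smul (0 : K) (0 : Fin m → K)
    rw [zero_smul, zero_smul] at h
    change dnD 0 ∈ g
    rw [h]
    exact g.zero_mem
  smul_mem' := by
    intro c s hs
    change dnD (c • s) ∈ g
    rw [dnD_smul]
    exact g.smul_mem c hs

theorem dl_add (d e : Fin m → K) (a : JD m) : dl (d + e) a = dl d a + dl e a := by
  cases a <;> simp [dl]; ring

theorem dl_smul (c : K) (d : Fin m → K) (a : JD m) : dl (c • d) a = c * dl d a := by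
  cases a <;> simp [dl]

theorem al_add (d e : Fin m → K) : al (d + e) = al d + al e := by
  ext j
  rw [Pi.add_apply, al, al, al, dl_add, dl_add]
  ring

theorem al_smul (c : K) (d : Fin m → K) : al (c • d) = c • al d := by
  ext j
  rw [Pi.smul_apply, al, al, dl_smul, dl_smul, smul_eq_mul]
  ring

def W0 (g : Submodule K (Matrix (JD m) (JD m) K)) : Submodule K (Fin m → K) where
  carrier := {z | ∃ d, Dg d ∈ g ∧ z = al d}
  add_mem' := by
    rintro s t ⟨d, hd, rfl⟩ ⟨e, he, rfl⟩
    exact ⟨d + e, by rw [Dg_add]; exact g.add_mem hd he, by rw [al_add]⟩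
  zero_mem' := ⟨0, by rw [Dg_zero]; exact g.zero_mem, by
    have h := al_smul (0 : K) (0 : Fin m → K)
    rw [zero_smul, zero_smul] at h
    exact h.symm⟩
  smul_mem' := by
    rintro c s ⟨d, hd, rfl⟩
    exact ⟨c • d, by rw [Dg_smul]; exact g.smul_mem c hd, by rw [al_smul]⟩

theorem tri_of_DStd {hm : 2 ≤ m} {g : Submodule K (Matrix (JD m) (JD m) K)} (S : DStd hm g) :
    TriA (AD m) (W1 g) (W0 g) (Wm g) where
  one1 := S.hN
  one0 := by
    refine ⟨_, ?_, (al_deg hm).symm⟩
    rw [← dg_degD]
    exact S.hD
  mul1 := by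
    rintro z ⟨d, hd, rfl⟩ u hu
    have h1 := S.br _ hd _ hu
    rw [bk_Dg_up] at h1
    exact h1
  mulm := by
    rintro z ⟨d, hd, rfl⟩ u hu
    have h1 := g.neg_mem (S.br _ hd _ hu)
    rw [bk_Dg_dn, neg_neg] at h1
    exact h1
  brk := by
    intro s hs y hy
    have h1 := S.br _ hs _ hy
    rw [bk_up_dn hm] at h1
    exact ⟨_, h1, cart_AD _⟩

theorem sk_part {X : Matrix (JD m) (JD m) K} (k : ℤ) (h : Sk X) : Sk (part (degD m) k X) := by
  intro p q
  simp only [part, Matrix.of_apply]
  rw [degD_bar, degD_bar]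
  by_cases h1 : degD m p - degD m q = k
  · rw [if_pos h1, if_pos (by omega)]
    exact h p q
  · rw [if_neg h1, if_neg (by omega), neg_zero]

/-- the trace form is non-degenerate -/
theorem DStd.rad [CharZero K] {hm : 2 ≤ m} {g : Submodule K (Matrix (JD m) (JD m) K)}
    (S : DStd hm g) : ∀ X ∈ MTC.rad g, X = 0 := by
  apply rad_zero S.std
  intro X hX hX1
  have hsk := S.sk X hX.1
  have h1 := eq_dnD hm hX1 hsk
  let R : Submodule K (Fin m → K) :=
    { carrier := {s | dnD s ∈ MTC.rad g}
      add_mem' := by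
        intro s t hs ht
        change dnD (s + t) ∈ MTC.rad g
        rw [dnD_add]
        exact (MTC.rad g).add_mem hs ht
      zero_mem' := by
        have h := dnD_smul (0 : K) (0 : Fin m → K)
        rw [zero_smul, zero_smul] at h
        change dnD 0 ∈ MTC.rad g
        rw [h]
        exact (MTC.rad g).zero_mem
      smul_mem' := by
        intro c s hs
        change dnD (c • s) ∈ MTC.rad g
        rw [dnD_smul]
        exact (MTC.rad g).smul_mem c hs }
  have hR : ∀ y ∈ R, y = 0 := by
    apply radical_zero (PD_AD hm) (tri_of_DStd S)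
    · intro y hy
      exact hy.1
    · rintro z ⟨d, hd, rfl⟩ u hu
      have h2 := (MTC.rad g).neg_mem (rad_bk S.br _ hd _ hu)
      rw [bk_Dg_dn, neg_neg] at h2
      exact h2
    · intro s hs y hy
      have h2 := hy.2 _ hs
      rw [Matrix.trace_mul_comm, trace_upD_mul _ (sk_dnD y)] at h2
      rcases mul_eq_zero.mp h2 with h3 | h3
      · exact absurd h3 two_ne_zero
      · rw [← h3]
        exact Finset.sum_congr rfl fun j _ => by rw [dnD_eab hm]
  have h6 : dnD (fun j => X (eb j) (ea j)) ∈ MTC.rad g := by rw [← h1]; exact hX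
  have h7 := hR _ h6
  have h := dnD_smul (0 : K) (0 : Fin m → K)
  rw [zero_smul, zero_smul] at h
  rw [h1, h7]
  exact h

theorem DStd.nd1 [CharZero K] {hm : 2 ≤ m} {g : Submodule K (Matrix (JD m) (JD m) K)}
    (S : DStd hm g) : ∀ s ∈ W1 g, (∀ y ∈ Wm g, ∑ i, s i * y i = 0) → s = 0 := by
  intro s hs h
  have h1 : upD s ∈ MTC.rad g := by
    refine ⟨hs, fun Y hY => ?_⟩
    have hskY := S.sk Y hY
    rw [trace_upD_mul _ hskY]
    have h2 : part (degD m) (-1) Y ∈ g := part_mem (fun X hX => S.br _ S.hD X hX) (-1) Y hY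
    have h3 := eq_dnD hm (hom_part (degD m) (-1) Y) (sk_part (-1) hskY)
    rw [h3] at h2
    have h4 := h _ h2
    have h5 : ∀ j : Fin m, part (degD m) (-1) Y (eb j) (ea j) = Y (eb j) (ea j) := by
      intro j
      simp only [part, Matrix.of_apply]
      rw [if_pos]
      have := deg_eab j hm
      omega
    rw [Finset.sum_congr rfl fun j _ => by rw [← h5 j], h4, mul_zero]
  have h2 := S.rad _ h1
  ext j
  rw [← upD_eab hm s j, h2]
  rfl

/-- the function `w` -/
def wK (K : Type) [Field K] (m : ℕ) : Fin m → K := fun j => ((wD m j : ℤ) : K)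

theorem cart_wK (hm : 2 ≤ m) (i : Fin m) : cart (AD m) (wK K m) i = 4 := by
  change cart (AD m) (fun j : Fin m => ((wD m j : ℤ) : K)) i = 4
  rw [cart_cartD hm, cartD_wD hm i i.2]
  norm_num

theorem wK_ne [CharZero K] (hm : 2 ≤ m) (i : Fin m) : wK K m i ≠ 0 := by
  have := wD_pos (m := m) (i := i) hm
  simp only [wK]
  exact_mod_cast this.ne'

theorem DStd.main [CharZero K] {hm : 2 ≤ m} {g : Submodule K (Matrix (JD m) (JD m) K)}
    (S : DStd hm g) : (∀ s : Fin m → K, s ∈ W1 g ↔ ∀ i j, Rel (W0 g) i j → s i = s j) ∧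
      W1 g ≤ W0 g ∧ wK K m ∈ Wm g :=
  tri_main (PD_AD hm) (tri_of_DStd S) S.nd1 (κ := 4) (cart_wK hm)

/-- if the leaves are not separated then `ell` is killed -/
theorem DStd.sep [CharZero K] {hm : 2 ≤ m} {g : Submodule K (Matrix (JD m) (JD m) K)}
    (S : DStd hm g) (hl : ∃ X ∈ g, X.mulVec (ell K hm) ≠ 0) :
    ¬ Rel (W0 g) ⟨m - 2, by omega⟩ ⟨m - 1, by omega⟩ := by
  intro hrel
  obtain ⟨hW1, h10, hw⟩ := S.main
  have T := tri_of_DStd S
  have hadx : ∀ X ∈ g, bk (dg (degD m)) X ∈ g := fun X hX => S.br _ S.hD X hX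
  have hs1 : ∀ s ∈ W1 g, s ⟨m - 2, by omega⟩ = s ⟨m - 1, by omega⟩ := fun s hs => hrel s (h10 hs)
  have hsm : ∀ y ∈ Wm g, y ⟨m - 2, by omega⟩ = y ⟨m - 1, by omega⟩ := by
    intro y hy
    have h1 := hrel _ (cart_mem T hy)
    -- compare the two entries
    let u : ℕ → K := fun j => if h : j < m then y ⟨j, h⟩ else 0
    have hu : y = fun j : Fin m => u j := by
      ext j
      simp [u, j.2]
    rw [cart_AD, al, al] at h1
    rw [hu] at h1 ⊢
    have hlt : ((⟨m - 2, by omega⟩ : Fin m) : ℕ) + 1 < m := by simp only; omega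
    have hnl : ¬ ((⟨m - 1, by omega⟩ : Fin m) : ℕ) + 1 < m := by simp only; omega
    rw [ea_lt hlt, eb_lt hlt, ea_last hnl, eb_last hnl] at h1
    simp only [dl, Sum.elim_inl, Sum.elim_inr] at h1
    have e1 : (⟨m - 2 + 1, hlt⟩ : Fin m) = ⟨m - 1, by omega⟩ := Fin.ext (by simp only; omega)
    rw [e1, co_eq hm] at h1
    have h2 := co_eq hm u ⟨m - 1, by omega⟩
    simp only at h2
    rw [if_neg (show ¬ m - 1 + 1 < m by omega), if_neg (show ¬ m - 1 = 0 by omega),
      if_pos (show m ≤ m - 1 + 2 by omega), show m - 1 - 1 = m - 2 by omega] at h2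
    rw [h2] at h1
    have h3 : (2 : K) * (u (m - 2) - u (m - 1)) = 0 := by linear_combination h1
    rcases mul_eq_zero.mp h3 with h | h
    · exact absurd h two_ne_zero
    · exact sub_eq_zero.mp h
  have hwell : (dnD (wK K m)).mulVec (ell K hm) = 0 := by
    rw [dn_ell hm, hsm _ hw, sub_self, zero_smul]
  have hNell : (upD (1 : Fin m → K)).mulVec (ell K hm) = 0 := by
    rw [up_ell hm, Pi.one_apply, Pi.one_apply, sub_self, zero_smul]
  have hcom : ∀ X Y : Matrix (JD m) (JD m) K, (bk X Y).mulVec (ell K hm) =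
      X.mulVec (Y.mulVec (ell K hm)) - Y.mulVec (X.mulVec (ell K hm)) := by
    intro X Y
    rw [bk, Matrix.sub_mulVec, Matrix.mulVec_mulVec, Matrix.mulVec_mulVec]
  have hdeg : ∀ (k : ℤ) (X : Matrix (JD m) (JD m) K), Hom (degD m) k X → ∀ p, degD m p ≠ k →
      X.mulVec (ell K hm) p = 0 := by
    intro k X hX p hp
    rw [ell, Matrix.mulVec_sub, Matrix.mulVec_single_one, Matrix.mulVec_single_one,
      Pi.sub_apply, Matrix.col_apply, Matrix.col_apply, hX, hX, sub_zero]
    · simp only [degD_inr]
      intro h6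
      apply hp
      rw [← h6]
      push_cast [Nat.cast_sub (show 1 ≤ m by omega)]
      ring
    · simp only [degD_inl]
      intro h6
      apply hp
      rw [← h6]
      push_cast [Nat.cast_sub (show 1 ≤ m by omega)]
      ring
  -- positive degrees
  have hpos : ∀ k : ℕ, ∀ X ∈ g, Hom (degD m) ((k : ℤ) + 1) X → X.mulVec (ell K hm) = 0 := by
    intro k
    induction k with
    | zero =>
      intro X hX hX1
      rw [Nat.cast_zero, zero_add] at hX1
      have h1 := eq_upD hm hX1 (S.sk X hX)
      have h2 : (fun j => X (ea j) (eb j)) ∈ W1 g := by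
        change upD _ ∈ g
        rw [← h1]
        exact hX
      rw [h1, up_ell hm, hs1 _ h2, sub_self, zero_smul]
    | succ k ih =>
      intro X hX hX1
      have h1 := S.br _ hw _ hX
      have h2 := hom_bk (hom_dnD hm (wK K m)) hX1
      have h3 : (-1 : ℤ) + (((k + 1 : ℕ) : ℤ) + 1) = (k : ℤ) + 1 := by push_cast; ring
      rw [h3] at h2
      have h4 := ih _ h1 h2
      rw [hcom, hwell, Matrix.mulVec_zero, sub_zero] at h4
      ext p
      rw [Pi.zero_apply]
      cases p with
      | inl i =>
        have hi := i.2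
        by_cases h6 : (i : ℕ) + 1 < m
        · have h7 := congrFun h4 (Sum.inl ⟨i + 1, h6⟩)
          rw [dn_row hm, Pi.zero_apply] at h7
          rcases mul_eq_zero.mp h7 with h8 | h8
          · exact absurd h8 (wK_ne hm _)
          · exact h8
        · apply hdeg _ X hX1
          simp only [degD_inl]
          push_cast
          omega
      | inr i =>
        have hi := i.2
        apply hdeg _ X hX1
        simp only [degD_inr]
        push_cast
        omega
  -- negative degrees
  have hneg : ∀ k : ℕ, ∀ X ∈ g, Hom (degD m) (-(k : ℤ) - 1) X → X.mulVec (ell K hm) = 0 := by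
    intro k
    induction k with
    | zero =>
      intro X hX hX1
      have hX1' : Hom (degD m) (-1) X := by simpa using hX1
      have h1 := eq_dnD hm hX1' (S.sk X hX)
      have h2 : (fun j => X (eb j) (ea j)) ∈ Wm g := by
        change dnD _ ∈ g
        rw [← h1]
        exact hX
      rw [h1, dn_ell hm, hsm _ h2, sub_self, zero_smul]
    | succ k ih =>
      intro X hX hX1
      have h1 := S.br _ S.hN _ hX
      have h2 := hom_bk (hom_upD hm (1 : Fin m → K)) hX1
      have h3 : (1 : ℤ) + (-((k + 1 : ℕ) : ℤ) - 1) = -(k : ℤ) - 1 := by push_cast; ring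
      rw [h3] at h2
      have h4 := ih _ h1 h2
      rw [hcom, hNell, Matrix.mulVec_zero, sub_zero] at h4
      ext p
      rw [Pi.zero_apply]
      cases p with
      | inl i =>
        have hi := i.2
        apply hdeg _ X hX1
        simp only [degD_inl]
        push_cast
        omega
      | inr i =>
        have hi := i.2
        by_cases h6 : (i : ℕ) + 1 < m
        · have h7 := congrFun h4 (Sum.inr ⟨i + 1, h6⟩)
          rw [up_row hm, Pi.zero_apply, Pi.one_apply, neg_mul, one_mul, neg_eq_zero] at h7
          exact h7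
        · apply hdeg _ X hX1
          simp only [degD_inr]
          push_cast
          omega
  -- degree zero
  have hzero : ∀ X ∈ g, Hom (degD m) 0 X → X.mulVec (ell K hm) = 0 := by
    intro X hX hX0
    have hsk := S.sk X hX
    have h1 : X = Dg (fun i => X (Sum.inl i) (Sum.inl i)) := by
      ext p q
      rw [Dg, Matrix.diagonal_apply]
      split_ifs with h
      · subst h
        cases p with
        | inl i => rfl
        | inr i =>
          rw [Sum.elim_inr, hsk, bar_inr]
      · cases p with
        | inl i =>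
          have hi := i.2
          cases q with
          | inl k =>
            apply hX0
            simp only [degD_inl]
            intro h2
            apply h
            congr 1
            exact Fin.ext (by omega)
          | inr k =>
            have hk := k.2
            by_cases h2 : degD m (Sum.inl i) - degD m (Sum.inr k) = 0
            · simp only [degD_inl, degD_inr] at h2
              have h3 : i = k := Fin.ext (by omega)
              subst h3
              have h4 := hsk (Sum.inl i) (Sum.inr i)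
              rw [bar_inl, bar_inr] at h4
              have h5 : (2 : K) * X (Sum.inl i) (Sum.inr i) = 0 := by linear_combination h4
              rcases mul_eq_zero.mp h5 with h | h
              · exact absurd h two_ne_zero
              · exact h
            · exact hX0 _ _ h2
        | inr i =>
          have hi := i.2
          cases q with
          | inl k =>
            have hk := k.2
            by_cases h2 : degD m (Sum.inr i) - degD m (Sum.inl k) = 0
            · simp only [degD_inl, degD_inr] at h2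
              have h3 : i = k := Fin.ext (by omega)
              subst h3
              have h4 := hsk (Sum.inr i) (Sum.inl i)
              rw [bar_inl, bar_inr] at h4
              have h5 : (2 : K) * X (Sum.inr i) (Sum.inl i) = 0 := by linear_combination h4
              rcases mul_eq_zero.mp h5 with h | h
              · exact absurd h two_ne_zero
              · exact h
            · exact hX0 _ _ h2
          | inr k =>
            apply hX0
            simp only [degD_inr]
            intro h2
            apply h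
            congr 1
            exact Fin.ext (by omega)
    set d : Fin m → K := fun i => X (Sum.inl i) (Sum.inl i) with hd
    have h2 : al d ∈ W0 g := ⟨d, by rw [← h1]; exact hX, rfl⟩
    have h3 := hrel _ h2
    have hlt : ((⟨m - 2, by omega⟩ : Fin m) : ℕ) + 1 < m := by simp only; omega
    have hnl : ¬ ((⟨m - 1, by omega⟩ : Fin m) : ℕ) + 1 < m := by simp only; omega
    rw [al, al, ea_lt hlt, eb_lt hlt, ea_last hnl, eb_last hnl] at h3
    simp only [dl, Sum.elim_inl, Sum.elim_inr] at h3
    have e1 : (⟨m - 2 + 1, hlt⟩ : Fin m) = ⟨m - 1, by omega⟩ := Fin.ext (by simp only; omega)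
    rw [e1] at h3
    have h4 : d ⟨m - 1, by omega⟩ = 0 := by
      have h5 : (2 : K) * d ⟨m - 1, by omega⟩ = 0 := by linear_combination -h3
      rcases mul_eq_zero.mp h5 with h | h
      · exact absurd h two_ne_zero
      · exact h
    rw [h1, ell, Matrix.mulVec_sub, Matrix.mulVec_single_one, Matrix.mulVec_single_one]
    ext p
    rw [Pi.sub_apply, Matrix.col_apply, Matrix.col_apply, Pi.zero_apply, Dg,
      Matrix.diagonal_apply, Matrix.diagonal_apply]
    by_cases hp1 : p = Sum.inl ⟨m - 1, by omega⟩
    · rw [if_pos hp1, if_neg (by rw [hp1]; simp), hp1, Sum.elim_inl, h4, sub_zero]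
    · rw [if_neg hp1]
      by_cases hp2 : p = Sum.inr ⟨m - 1, by omega⟩
      · rw [if_pos hp2, hp2, Sum.elim_inr, h4, neg_zero, sub_zero]
      · rw [if_neg hp2, sub_zero]
  obtain ⟨X, hX, hXl⟩ := hl
  apply hXl
  rw [sum_part (degD m) X, Matrix.sum_mulVec]
  apply Finset.sum_eq_zero
  intro k _
  have h2 := part_mem hadx k X hX
  have h3 := hom_part (degD m) k X
  rcases lt_trichotomy k 0 with hk | hk | hk
  · apply hneg (-k - 1).toNat _ h2
    have h4 : -(((-k - 1).toNat : ℕ) : ℤ) - 1 = k := by omega
    rwa [h4]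
  · subst hk
    exact hzero _ h2 h3
  · apply hpos (k - 1).toNat _ h2
    have h4 : (((k - 1).toNat : ℕ) : ℤ) + 1 = k := by omega
    rwa [h4]

/-- the partition is discrete -/
theorem DStd.disc [CharZero K] {hm : 2 ≤ m} (hm4 : m ≠ 4)
    {g : Submodule K (Matrix (JD m) (JD m) K)}
    (S : DStd hm g) (hl : ∃ X ∈ g, X.mulVec (ell K hm) ≠ 0) :
    ∀ i j : Fin m, Rel (W0 g) i j → i = j := by
  classical
  have hsep := S.sep hl
  obtain ⟨hW1, h10, hw⟩ := S.main
  have T := tri_of_DStd S
  let xt : (Fin m → K) → ℕ → K := fun z i => if h : i < m then z ⟨i, h⟩ else 0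
  have hxt : ∀ (z : Fin m → K) (i : Fin m), xt z i = z i := fun z i => by
    simp [xt, i.2]
  let r : ℕ → ℕ → Prop := fun i j => ∀ z ∈ W0 g, xt z i = xt z j
  have hr : ∀ i j : Fin m, r i j ↔ Rel (W0 g) i j := by
    intro i j
    constructor
    · intro h z hz
      have h1 := h z hz
      rwa [hxt, hxt] at h1
    · intro h z hz
      rw [hxt, hxt]
      exact h z hz
  have key := partitionD (m := m) hm hm4 (r := r) (fun i z _ => rfl)
    (fun i j h z hz => (h z hz).symm) (fun i j k h h' z hz => (h z hz).trans (h' z hz))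
    (fun h => hsep ((hr ⟨m - 2, by omega⟩ ⟨m - 1, by omega⟩).mp h)) (by
      intro c hc i hi j hj hij
      have h1 : blk (W0 g) ⟨c, hc⟩ (wK K m) ∈ Wm g := blk_mem T.one0 T.mulm ⟨c, hc⟩ hw
      have h2 := (hr ⟨i, hi⟩ ⟨j, hj⟩).mp hij _ (cart_mem T h1)
      have h3 : blk (W0 g) ⟨c, hc⟩ (wK K m) = fun j : Fin m => ((uD m r c j : ℤ) : K) := by
        ext a
        by_cases ha : Rel (W0 g) a ⟨c, hc⟩
        · rw [blk_of _ ha, uD_of ((hr a ⟨c, hc⟩).mpr ha), wK]
        · rw [blk_of_not _ ha, uD_of_not (fun h => ha ((hr a ⟨c, hc⟩).mp h)), Int.cast_zero]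
      rw [h3, cart_cartD hm, cart_cartD hm] at h2
      exact_mod_cast h2)
  intro i j hij
  exact Fin.ext (key i i.2 j j.2 ((hr i j).mpr hij))

theorem DStd.EF [CharZero K] {hm : 2 ≤ m} (hm4 : m ≠ 4)
    {g : Submodule K (Matrix (JD m) (JD m) K)}
    (S : DStd hm g) (hl : ∃ X ∈ g, X.mulVec (ell K hm) ≠ 0) :
    (∀ j : Fin m, EE j ∈ g) ∧ (∀ j : Fin m, FF j ∈ g) := by
  classical
  have hdisc := S.disc hm4 hl
  obtain ⟨hW1, h10, hw⟩ := S.main
  have T := tri_of_DStd S
  constructor
  · intro j
    have h1 : (Pi.single j 1 : Fin m → K) ∈ W1 g := by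
      rw [hW1]
      intro a b hab
      rw [hdisc a b hab]
    have h2 : upD (Pi.single j 1 : Fin m → K) = EE j := by
      rw [upD, Finset.sum_eq_single j]
      · rw [Pi.single_eq_same, one_smul]
      · intro i _ hij
        rw [Pi.single_eq_of_ne hij, zero_smul]
      · intro h
        exact absurd (Finset.mem_univ _) h
    rw [← h2]
    exact h1
  · intro j
    have h1 : blk (W0 g) j (wK K m) ∈ Wm g := blk_mem T.one0 T.mulm j hw
    have h2 : dnD (blk (W0 g) j (wK K m)) = wK K m j • FF j := by
      rw [dnD, Finset.sum_eq_single j]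
      · rw [blk_of _ (Rel.rfl' j)]
      · intro i _ hij
        rw [blk_of_not _ (fun h => hij (hdisc i j h)), zero_smul]
      · intro h
        exact absurd (Finset.mem_univ _) h
    have h3 : (FF j : Matrix (JD m) (JD m) K) = (wK K m j)⁻¹ • dnD (blk (W0 g) j (wK K m)) := by
      rw [h2, smul_smul, inv_mul_cancel₀ (wK_ne hm j), one_smul]
    rw [h3]
    exact g.smul_mem _ h1

/-- the root vectors generate -/
theorem gen_EF [CharZero K] (hm : 2 ≤ m) {g : Submodule K (Matrix (JD m) (JD m) K)}
    (br : ∀ X ∈ g, ∀ Y ∈ g, bk X Y ∈ g) (hE : ∀ j : Fin m, EE j ∈ g)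
    (hF : ∀ j : Fin m, FF j ∈ g) : ∀ X, Sk X → X ∈ g := by
  classical
  -- diagonal
  have hH : ∀ j : Fin m, Dg (fun k => (bt j k : K)) ∈ g := fun j => by
    rw [← bk_EF_same hm j]
    exact br _ (hE j) _ (hF j)
  have hsub : ∀ X Y : Matrix (JD m) (JD m) K, X ∈ g → Y ∈ g → X - Y ∈ g :=
    fun X Y hX hY => g.sub_mem hX hY
  have hlast : Dg (Pi.single (⟨m - 1, by omega⟩ : Fin m) (1 : K)) ∈ g := by
    have h1 := hH ⟨m - 2, by omega⟩
    have h2 := hH ⟨m - 1, by omega⟩
    have h3 : Dg (Pi.single (⟨m - 1, by omega⟩ : Fin m) (1 : K)) = (2 : K)⁻¹ •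
        (Dg (fun k => (bt (⟨m - 1, by omega⟩ : Fin m) k : K)) -
          Dg (fun k => (bt (⟨m - 2, by omega⟩ : Fin m) k : K))) := by
      rw [sub_eq_add_neg, ← neg_one_smul K (Dg _), ← Dg_smul, ← Dg_add, ← Dg_smul]
      congr 1
      have hlt : ((⟨m - 2, by omega⟩ : Fin m) : ℕ) + 1 < m := by simp only; omega
      have hnl : ¬ ((⟨m - 1, by omega⟩ : Fin m) : ℕ) + 1 < m := by simp only; omega
      have e1 : (⟨m - 2 + 1, hlt⟩ : Fin m) = ⟨m - 1, by omega⟩ := Fin.ext (by simp only; omega)
      ext k
      simp only [Pi.smul_apply, Pi.add_apply, smul_eq_mul, bt]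
      rw [ea_lt hlt, eb_lt hlt, ea_last hnl, eb_last hnl, e1]
      simp only [sg]
      by_cases hk : k = ⟨m - 1, by omega⟩
      · subst hk
        rw [Pi.single_eq_same, if_neg (by
          intro h
          have := congrArg Fin.val h
          simp only at this
          omega), if_pos rfl]
        push_cast
        norm_num
      · have h5 : ¬ ((⟨m - 1, by omega⟩ : Fin m) = k) := fun h => hk h.symm
        rw [Pi.single_eq_of_ne hk, if_neg h5]
        push_cast
        ring
    rw [h3]
    exact g.smul_mem _ (g.sub_mem h2 h1)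
  have hdiag : ∀ d t : ℕ, ∀ ht : t < m, t + d + 1 = m → Dg (Pi.single (⟨t, ht⟩ : Fin m) (1 : K)) ∈ g := by
    intro d
    induction d with
    | zero =>
      intro t ht htd
      have h8 : t = m - 1 := by omega
      subst h8
      exact hlast
    | succ d ih =>
      intro t ht htd
      have h1 := hH ⟨t, ht⟩
      have h2 := ih (t + 1) (by omega) (by omega)
      have hlt : ((⟨t, ht⟩ : Fin m) : ℕ) + 1 < m := by simp only; omega
      have h3 : Dg (Pi.single (⟨t, ht⟩ : Fin m) (1 : K)) =
          Dg (fun k => (bt (⟨t, ht⟩ : Fin m) k : K)) +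
            Dg (Pi.single (⟨t + 1, by omega⟩ : Fin m) (1 : K)) := by
        rw [← Dg_add]
        congr 1
        ext k
        simp only [Pi.add_apply, bt]
        rw [ea_lt hlt, eb_lt hlt]
        simp only [sg, Pi.single_apply]
        by_cases hk1 : k = ⟨t, ht⟩
        · subst hk1
          simp
        · by_cases hk2 : k = ⟨t + 1, by omega⟩
          · subst hk2
            simp
          · rw [if_neg hk1, if_neg hk2, if_neg (fun h => hk1 h.symm), if_neg (fun h => hk2 h.symm)]
            simp
      rw [h3]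
      exact g.add_mem h1 h2
  have hll0 : ∀ i : Fin m, (MM (Sum.inl i) (Sum.inl i) : Matrix (JD m) (JD m) K) ∈ g := by
    intro i
    have h1 := hdiag (m - 1 - i) i i.2 (by have := i.2; omega)
    rw [MM_diag]
    convert h1 using 2
    ext k
    simp only [sg, Pi.single_apply]
    by_cases hk : k = i
    · subst hk; simp
    · rw [if_neg (fun h => hk h.symm), if_neg hk]
      simp
  -- `inl - inl`
  have hup : ∀ d : ℕ, ∀ i k : Fin m, (k : ℕ) = i + d + 1 →
      (MM (Sum.inl i) (Sum.inl k) : Matrix (JD m) (JD m) K) ∈ g := by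
    intro d
    induction d with
    | zero =>
      intro i k hik
      have hk := k.2
      have h1 := hE i
      rw [EE, ea_lt (by omega), eb_lt (by omega)] at h1
      convert h1 using 3
      exact Fin.ext (by simp only; omega)
    | succ d ih =>
      intro i k hik
      have hk := k.2
      have h1 := ih i ⟨k - 1, by omega⟩ (by simp only; omega)
      have h2 := hE ⟨k - 1, by omega⟩
      rw [EE, ea_lt (by simp only; omega), eb_lt (by simp only; omega)] at h2
      have e1 : (⟨((⟨k - 1, by omega⟩ : Fin m) : ℕ) + 1, by simp only; omega⟩ : Fin m) = k :=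
        Fin.ext (by simp only; omega)
      rw [e1] at h2
      have h3 := br _ h1 _ h2
      rw [bk_MM, if_pos rfl, if_neg, if_neg (by simp), if_neg (by simp)] at h3
      · simpa using h3
      · rw [Sum.inl.injEq]
        intro h
        have := congrArg Fin.val h
        omega
  have hdn : ∀ d : ℕ, ∀ i k : Fin m, (k : ℕ) = i + d + 1 →
      (MM (Sum.inl k) (Sum.inl i) : Matrix (JD m) (JD m) K) ∈ g := by
    intro d
    induction d with
    | zero =>
      intro i k hik
      have hk := k.2
      have h1 := hF i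
      rw [FF, ea_lt (by omega), eb_lt (by omega)] at h1
      convert h1 using 3
      exact Fin.ext (by simp only; omega)
    | succ d ih =>
      intro i k hik
      have hk := k.2
      have h1 := ih i ⟨k - 1, by omega⟩ (by simp only; omega)
      have h2 := hF ⟨k - 1, by omega⟩
      rw [FF, ea_lt (by simp only; omega), eb_lt (by simp only; omega)] at h2
      have e1 : (⟨((⟨k - 1, by omega⟩ : Fin m) : ℕ) + 1, by simp only; omega⟩ : Fin m) = k :=
        Fin.ext (by simp only; omega)
      rw [e1] at h2
      have h3 := br _ h2 _ h1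
      rw [bk_MM, if_pos rfl, if_neg, if_neg (by simp), if_neg (by simp)] at h3
      · simpa using h3
      · rw [Sum.inl.injEq]
        intro h
        have := congrArg Fin.val h
        omega
  have hll : ∀ i k : Fin m, (MM (Sum.inl i) (Sum.inl k) : Matrix (JD m) (JD m) K) ∈ g := by
    intro i k
    rcases lt_trichotomy (i : ℕ) k with h | h | h
    · exact hup (k - i - 1) i k (by omega)
    · have : i = k := Fin.ext h
      subst this
      exact hll0 i
    · exact hdn (i - k - 1) k i (by omega)
  have hnl : ¬ ((⟨m - 1, by omega⟩ : Fin m) : ℕ) + 1 < m := by simp only; omega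
  -- `inl - inr`
  have hlr1 : ∀ i : Fin m, (MM (Sum.inl i) (Sum.inr ⟨m - 1, by omega⟩) :
      Matrix (JD m) (JD m) K) ∈ g := by
    intro i
    have h0 := hE ⟨m - 1, by omega⟩
    rw [EE, ea_last hnl, eb_last hnl] at h0
    by_cases hi : i = ⟨m - 1, by omega⟩
    · subst hi
      have h1 := MM_self (K := K) (m := m) (Sum.inl ⟨m - 1, by omega⟩)
      rw [bar_inl] at h1
      rw [h1]
      exact g.zero_mem
    · have h1 := br _ (hll i ⟨m - 2, by omega⟩) _ h0
      rw [bk_MM, if_pos rfl, if_neg (by simp), if_neg, if_neg (by simp)] at h1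
      · simpa using h1
      · rw [bar_inr, Sum.inl.injEq]
        intro h
        have := congrArg Fin.val h
        simp only at this
        omega
  have hlr : ∀ i k : Fin m, (MM (Sum.inl k) (Sum.inr i) : Matrix (JD m) (JD m) K) ∈ g := by
    intro i k
    by_cases hi : i = ⟨m - 1, by omega⟩
    · subst hi
      exact hlr1 k
    · by_cases hki : k = i
      · subst hki
        have h1 := MM_self (K := K) (m := m) (Sum.inl k)
        rw [bar_inl] at h1
        rw [h1]
        exact g.zero_mem
      have h1 := br _ (hll k ⟨m - 1, by omega⟩) _ (hlr1 i)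
      rw [bk_MM, if_neg (by rw [Sum.inl.injEq]; exact fun h => hi h.symm), if_neg (by simp),
        if_pos (by simp), if_neg (by simp), bar_inl] at h1
      have h2 := g.neg_mem h1
      simpa using h2
  -- `inr - inl`
  have hrl1 : ∀ i : Fin m, (MM (Sum.inr ⟨m - 1, by omega⟩) (Sum.inl i) :
      Matrix (JD m) (JD m) K) ∈ g := by
    intro i
    have h0 := hF ⟨m - 1, by omega⟩
    rw [FF, ea_last hnl, eb_last hnl] at h0
    by_cases hi : i = ⟨m - 1, by omega⟩
    · subst hi
      have h1 := MM_self (K := K) (m := m) (Sum.inr ⟨m - 1, by omega⟩)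
      rw [bar_inr] at h1
      rw [h1]
      exact g.zero_mem
    · have h1 := br _ h0 _ (hll ⟨m - 2, by omega⟩ i)
      rw [bk_MM, if_pos rfl, if_neg (by simp), if_neg (by simp), if_neg] at h1
      · simpa using h1
      · rw [bar_inr, Sum.inl.injEq]
        intro h
        have := congrArg Fin.val h
        simp only at this
        omega
  have hrl : ∀ i k : Fin m, (MM (Sum.inr i) (Sum.inl k) : Matrix (JD m) (JD m) K) ∈ g := by
    intro i k
    by_cases hi : i = ⟨m - 1, by omega⟩
    · subst hi
      exact hrl1 k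
    · by_cases hki : k = i
      · subst hki
        have h1 := MM_self (K := K) (m := m) (Sum.inr k)
        rw [bar_inr] at h1
        rw [h1]
        exact g.zero_mem
      have h1 := br _ (hrl1 i) _ (hll ⟨m - 1, by omega⟩ k)
      rw [bk_MM, if_neg (by rw [Sum.inl.injEq]; exact hi), if_neg (by simp),
        if_neg (by simp), if_pos (by simp), bar_inl] at h1
      have h2 := g.neg_mem h1
      simpa using h2
  have hrr : ∀ i k : Fin m, (MM (Sum.inr i) (Sum.inr k) : Matrix (JD m) (JD m) K) ∈ g := by
    intro i k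
    have h1 := g.neg_mem (hll k i)
    rw [← MM_bar, bar_inl, bar_inl] at h1
    exact h1
  have hall : ∀ a b : JD m, (MM a b : Matrix (JD m) (JD m) K) ∈ g := by
    intro a b
    cases a with
    | inl i =>
      cases b with
      | inl k => exact hll i k
      | inr k => exact hlr k i
    | inr i =>
      cases b with
      | inl k => exact hrl i k
      | inr k => exact hrr i k
  intro X hX
  have h1 : X = (2 : K)⁻¹ • ∑ a, ∑ b, X a b • MM a b := by
    ext p q
    rw [Matrix.smul_apply, Matrix.sum_apply, smul_eq_mul]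
    have h2 : ∑ a, (∑ b, X a b • (MM a b : Matrix (JD m) (JD m) K)) p q = 2 * X p q := by
      have h3 : ∀ a b : JD m, (X a b • (MM a b : Matrix (JD m) (JD m) K)) p q =
          (if a = p then (if b = q then X a b else 0) else 0) -
          (if a = bar q then (if b = bar p then X a b else 0) else 0) := by
        intro a b
        rw [Matrix.smul_apply, MM_apply, smul_eq_mul, mul_sub]
        have e1 : (bar b = p ∧ bar a = q) ↔ (a = bar q ∧ b = bar p) := by
          rw [bar_eq, bar_eq]
          exact ⟨fun h => ⟨h.2, h.1⟩, fun h => ⟨h.2, h.1⟩⟩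
        rw [ite_and, if_congr e1 rfl rfl, ite_and]
        split_ifs <;> simp
      simp only [Matrix.sum_apply, h3, Finset.sum_sub_distrib]
      simp only [Finset.sum_ite_irrel, Finset.sum_const_zero, Finset.sum_ite_eq', Finset.mem_univ,
        if_true]
      rw [hX p q]
      ring
    rw [h2, ← mul_assoc, inv_mul_cancel₀ (two_ne_zero), one_mul]
  rw [h1]
  exact g.smul_mem _ (g.sum_mem fun a _ => g.sum_mem fun b _ => g.smul_mem _ (hall a b))

/-- MAIN: the Lie algebra is `so_2m` -/
theorem DStd.full [CharZero K] {hm : 2 ≤ m} (hm4 : m ≠ 4)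
    {g : Submodule K (Matrix (JD m) (JD m) K)}
    (S : DStd hm g) (hl : ∃ X ∈ g, X.mulVec (ell K hm) ≠ 0) : ∀ X, Sk X → X ∈ g := by
  obtain ⟨hE, hF⟩ := S.EF hm4 hl
  exact gen_EF hm S.br hE hF

end MTC
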