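import Mathlib

/-!
# Equitable partitions of the weighted Dynkin diagram of type `D_m`

The nodes are `0, …, m - 1`; the leaves `m - 2` and `m - 1` are joined to `m - 3`.
-/

set_option autoImplicit false

namespace MTC

/-- twice the coefficients of `2 ρ` -/
def wD (m : ℕ) (i : ℕ) : ℤ :=
  if i + 2 < m then 2 * ((i : ℤ) + 1) * (2 * m - 2 - i) else (m : ℤ) * (m - 1)

/-- the Cartan matrix of type `D_m` acting on functions -/
def cartD (m : ℕ) (u : ℕ → ℤ) (i : ℕ) : ℤ :=
  if i + 3 < m then 2 * u i - (if i = 0 then 0 else u (i - 1)) - u (i + 1)
  else if i + 3 = m then 2 * u i - (if i = 0 then 0 else u (i - 1)) - u (m - 2) - u (m - 1)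
  else 2 * u i - (if 3 ≤ m then u (m - 3) else 0)

open Classical in
/-- the function `w` on the block of `c` -/
noncomputable def uD (m : ℕ) (r : ℕ → ℕ → Prop) (c : ℕ) : ℕ → ℤ :=
  fun i => if r i c then wD m i else 0

theorem uD_of {m : ℕ} {r : ℕ → ℕ → Prop} {c i : ℕ} (h : r i c) : uD m r c i = wD m i := by
  simp [uD, h]

theorem uD_of_not {m : ℕ} {r : ℕ → ℕ → Prop} {c i : ℕ} (h : ¬ r i c) : uD m r c i = 0 := by
  simp [uD, h]

theorem wD_pos {m i : ℕ} (hm : 2 ≤ m) : 0 < wD m i := by
  have hm' : (2 : ℤ) ≤ m := by exact_mod_cast hm
  unfold wD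
  split_ifs with h
  · have h1 : (i : ℤ) + 2 < m := by exact_mod_cast h
    have h2 : (0 : ℤ) ≤ i := by positivity
    apply mul_pos <;> nlinarith
  · nlinarith

theorem uD_nonneg {m : ℕ} {r : ℕ → ℕ → Prop} {c i : ℕ} (hm : 2 ≤ m) : 0 ≤ uD m r c i := by
  by_cases h : r i c
  · rw [uD_of h]; exact (wD_pos hm).le
  · rw [uD_of_not h]

theorem wD_lt {m i j : ℕ} (hij : i < j) (hj : j + 2 < m) : wD m i < wD m j := by
  unfold wD
  rw [if_pos (by omega), if_pos hj]
  have h1 : (i : ℤ) + 1 ≤ j := by exact_mod_cast hij
  have h2 : (j : ℤ) + 3 ≤ m := by exact_mod_cast (show j + 3 ≤ m by omega)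
  have h3 : (0 : ℤ) ≤ i := by positivity
  nlinarith

theorem wD_leaf {m i : ℕ} (h : m ≤ i + 2) : wD m i = (m : ℤ) * (m - 1) := by
  unfold wD
  rw [if_neg (by omega)]

theorem partitionD {m : ℕ} (hm : 2 ≤ m) (hm4 : m ≠ 4) {r : ℕ → ℕ → Prop} (refl : ∀ i, r i i)
    (symm : ∀ i j, r i j → r j i) (trans : ∀ i j k, r i j → r j k → r i k)
    (hsep : ¬ r (m - 2) (m - 1))
    (hN : ∀ c, c < m → ∀ i, i < m → ∀ j, j < m → r i j →
      cartD m (uD m r c) i = cartD m (uD m r c) j) :
    ∀ i, i < m → ∀ k, k < m → r i k → i = k := by
  classical
  rcases Nat.lt_or_ge m 5 with h5 | h5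
  · -- m = 2 or m = 3
    rcases Nat.lt_or_ge m 3 with h3 | h3
    · have hm2 : m = 2 := by omega
      subst hm2
      intro i hi k hk hik
      by_contra hne
      have h1 : (i = 0 ∧ k = 1) ∨ (i = 1 ∧ k = 0) := by omega
      rcases h1 with ⟨rfl, rfl⟩ | ⟨rfl, rfl⟩
      · exact hsep hik
      · exact hsep (symm _ _ hik)
    · have hm3 : m = 3 := by omega
      subst hm3
      have h12 : ¬ r 1 2 := hsep
      have h21 : ¬ r 2 1 := fun h => h12 (symm _ _ h)
      have h01 : ¬ r 0 1 := by
        intro h
        have h20 : ¬ r 2 0 := fun h' => h21 (trans _ _ _ h' h)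
        have h1 := hN 0 (by omega) 0 (by omega) 1 (by omega) h
        simp only [cartD, uD_of (refl 0), uD_of (symm _ _ h), uD_of_not h20] at h1
        norm_num [wD] at h1
      have h02 : ¬ r 0 2 := by
        intro h
        have h10 : ¬ r 1 0 := fun h' => h12 (trans _ _ _ h' h)
        have h1 := hN 0 (by omega) 0 (by omega) 2 (by omega) h
        simp only [cartD, uD_of (refl 0), uD_of (symm _ _ h), uD_of_not h10] at h1
        norm_num [wD] at h1
      intro i hi k hk hik
      by_contra hne
      have h1 : (i = 0 ∧ k = 1) ∨ (i = 1 ∧ k = 0) ∨ (i = 0 ∧ k = 2) ∨ (i = 2 ∧ k = 0) ∨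
        (i = 1 ∧ k = 2) ∨ (i = 2 ∧ k = 1) := by omega
      rcases h1 with ⟨rfl, rfl⟩ | ⟨rfl, rfl⟩ | ⟨rfl, rfl⟩ | ⟨rfl, rfl⟩ | ⟨rfl, rfl⟩ | ⟨rfl, rfl⟩
      · exact h01 hik
      · exact h01 (symm _ _ hik)
      · exact h02 hik
      · exact h02 (symm _ _ hik)
      · exact h12 hik
      · exact h21 hik
  -- m ≥ 5
  have hmZ : (5 : ℤ) ≤ m := by exact_mod_cast h5
  have w0 : wD m 0 = 4 * (m : ℤ) - 4 := by
    unfold wD; rw [if_pos (by omega)]; push_cast; ring
  have w1 : wD m 1 = 8 * (m : ℤ) - 12 := by
    unfold wD; rw [if_pos (by omega)]; push_cast; ring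
  -- {0} is a block
  have hzero : ∀ k, k < m → r k 0 → k = 0 := by
    by_cases h10 : r 1 0
    · exfalso
      have hstep : ∀ i, i + 3 ≤ m → r i 0 → ∀ j, j < m → (j = i + 1 ∨ (i + 3 = m ∧ j = m - 1)) →
          r j 0 := by
        intro i hi hi0 j hj hij
        by_contra hcon
        have h1 : ¬ r 1 j := fun h => hcon (trans _ _ _ (symm _ _ h) h10)
        have h2 : ¬ r 0 j := fun h => hcon (symm _ _ h)
        have h3 : ¬ r i j := fun h => hcon (trans _ _ _ (symm _ _ h) hi0)
        have h4 := hN j hj 0 (by omega) i (by omega) (symm _ _ hi0)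
        have h5' : cartD m (uD m r j) 0 = 0 := by
          unfold cartD
          rw [if_pos (by omega), uD_of_not h2, uD_of_not h1]
          simp
        have h6 : cartD m (uD m r j) i < 0 := by
          unfold cartD
          have hp := wD_pos (m := m) (i := j) hm
          have hnn : ∀ t, 0 ≤ uD m r j t := fun t => uD_nonneg hm
          have hj' : uD m r j j = wD m j := uD_of (refl j)
          rcases Nat.lt_or_ge (i + 3) m with hlt | hge
          · have hji : j = i + 1 := by omega
            rw [if_pos hlt, uD_of_not h3]
            rw [← hji, hj']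
            have h7 := hnn (i - 1)
            split_ifs <;> linarith
          · have him : i + 3 = m := by omega
            rw [if_neg (by omega), if_pos him, uD_of_not h3]
            have h7 := hnn (i - 1)
            have h8 := hnn (m - 2)
            have h9 := hnn (m - 1)
            have h10' : j = m - 2 ∨ j = m - 1 := by omega
            rcases h10' with h | h
            · rw [h] at hj' hp
              rw [h] at h7 h8 h9 ⊢
              rw [hj']
              split_ifs <;> linarith
            · rw [h] at hj' hp
              rw [h] at h7 h8 h9 ⊢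
              rw [hj']
              split_ifs <;> linarith
        rw [← h4, h5'] at h6
        exact lt_irrefl _ h6
      have hall : ∀ i, i + 3 ≤ m → r i 0 := by
        intro i
        induction i with
        | zero => exact fun _ => refl 0
        | succ i ih => exact fun hi => hstep i (by omega) (ih (by omega)) (i + 1) (by omega) (Or.inl rfl)
      have ha := hstep (m - 3) (by omega) (hall (m - 3) (by omega)) (m - 2) (by omega)
        (Or.inl (by omega))
      have hb := hstep (m - 3) (by omega) (hall (m - 3) (by omega)) (m - 1) (by omega)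
        (Or.inr ⟨by omega, rfl⟩)
      exact hsep (trans _ _ _ ha (symm _ _ hb))
    · intro k hk hk0
      by_contra hkne
      have h01 : ¬ r 0 1 := fun h => h10 (symm _ _ h)
      have key : ∀ k, k < m → k ≠ 0 → r k 0 →
          cartD m (uD m r 1) k = -wD m 1 ∧ cartD m (uD m r 0) k = 2 * wD m 0 ∧
          uD m r 1 k = 0 ∧ uD m r 0 k = wD m k ∧ k ≠ 1 := by
        intro k hk hkne hk0
        have hk1 : ¬ r k 1 := fun h => h01 (trans _ _ _ (symm _ _ hk0) h)
        refine ⟨?_, ?_, uD_of_not hk1, uD_of hk0, fun h => hk1 (h ▸ refl _)⟩
        · rw [← hN 1 (by omega) 0 (by omega) k hk (symm _ _ hk0)]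
          unfold cartD
          rw [if_pos (by omega), if_pos rfl, uD_of_not h01, uD_of (refl 1)]
          ring
        · rw [← hN 0 (by omega) 0 (by omega) k hk (symm _ _ hk0)]
          unfold cartD
          rw [if_pos (by omega), if_pos rfl, uD_of (refl 0), uD_of_not h10]
          ring
      obtain ⟨k1, k2, k3, k4, k5⟩ := key k hk hkne hk0
      have hval : ∀ c t, uD m r c t = 0 ∨ uD m r c t = wD m t := by
        intro c t
        by_cases h : r t c
        · exact Or.inr (uD_of h)
        · exact Or.inl (uD_of_not h)
      rcases Nat.lt_or_ge (k + 3) m with hlt | hge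
      · -- inner node
        unfold cartD at k1 k2
        rw [if_pos hlt, if_neg hkne, k3] at k1
        rw [if_pos hlt, if_neg hkne, k4] at k2
        have h1 : wD m 1 < wD m (k + 1) := wD_lt (by omega) (by omega)
        have hp1 := wD_pos (m := m) (i := 1) hm
        have hp2 := wD_pos (m := m) (i := k - 1) hm
        have hk2 : k = 2 := by
          rcases hval 1 (k - 1) with ha | ha <;> rcases hval 1 (k + 1) with hb | hb <;>
            rw [ha, hb] at k1
          · linarith
          · linarith
          · by_contra hk2
            have h2 : wD m 1 < wD m (k - 1) := wD_lt (by omega) (by omega)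
            linarith
          · linarith
        subst hk2
        have h3m : 3 + 3 ≤ m := by omega
        have h02 : wD m 0 < wD m 2 := wD_lt (by omega) (by omega)
        have hr3 : r 3 0 := by
          by_contra h
          have h4 : uD m r 0 (2 + 1) = 0 := uD_of_not h
          have h6 : uD m r 0 (2 - 1) = 0 := uD_of_not h10
          rw [h4, h6] at k2
          linarith
        obtain ⟨l1, -, l3, -, -⟩ := key 3 (by omega) (by omega) hr3
        have h21 : uD m r 1 2 = 0 := k3
        unfold cartD at l1
        rcases Nat.lt_or_ge (3 + 3) m with h6 | h6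
        · rw [if_pos h6, if_neg (by omega), l3] at l1
          have h7 : wD m 1 < wD m (3 + 1) := wD_lt (by omega) (by omega)
          rw [show (3 - 1 : ℕ) = 2 from rfl, h21] at l1
          rcases hval 1 (3 + 1) with hb | hb <;> rw [hb] at l1 <;> linarith
        · have hm6 : m = 6 := by omega
          subst hm6
          rw [if_neg (by omega), if_pos (by omega), if_neg (by omega), l3] at l1
          rw [show (3 - 1 : ℕ) = 2 from rfl, h21] at l1
          have h8 : ¬ (r (6 - 2) 1 ∧ r (6 - 1) 1) := fun h => hsep (trans _ _ _ h.1 (symm _ _ h.2))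
          rw [w1] at l1
          have e1 : wD 6 (6 - 2) = 30 := by norm_num [wD]
          have e2 : wD 6 (6 - 1) = 30 := by norm_num [wD]
          rcases hval 1 (6 - 2) with ha | ha <;> rcases hval 1 (6 - 1) with hb | hb <;>
            rw [ha, hb] at l1 <;> (try rw [e1] at l1) <;> (try rw [e2] at l1) <;>
            norm_num at l1
      · rcases Nat.lt_or_ge m (k + 3) with hlt2 | hge2
        · -- leaf
          unfold cartD at k1
          rw [if_neg (by omega), if_neg (by omega), if_pos (by omega), k3] at k1
          have h1 : wD m 1 < wD m (m - 3) := wD_lt (by omega) (by omega)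
          have hp1 := wD_pos (m := m) (i := 1) hm
          rcases hval 1 (m - 3) with hb | hb <;> rw [hb] at k1 <;> linarith
        · -- the node m - 3
          have hkm : k + 3 = m := by omega
          unfold cartD at k1 k2
          rw [if_neg (by omega), if_pos hkm, if_neg hkne, k3] at k1
          rw [if_neg (by omega), if_pos hkm, if_neg hkne, k4] at k2
          have hnot : ∀ c, ¬ (r (m - 2) c ∧ r (m - 1) c) :=
            fun c h => hsep (trans _ _ _ h.1 (symm _ _ h.2))
          have lf2 : wD m (m - 2) = (m : ℤ) * (m - 1) := wD_leaf (by omega)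
          have lf1 : wD m (m - 1) = (m : ℤ) * (m - 1) := wD_leaf (by omega)
          have hkZ : (k : ℤ) = m - 3 := by
            have : (k : ℤ) + 3 = m := by exact_mod_cast hkm
            linarith
          have wk1 : wD m (k - 1) = 2 * ((m : ℤ) - 3) * (m + 2) := by
            unfold wD
            rw [if_pos (by omega)]
            have h1 : ((k - 1 : ℕ) : ℤ) = m - 4 := by
              have : ((k - 1 : ℕ) : ℤ) = (k : ℤ) - 1 := by
                push_cast [show 1 ≤ k by omega]; ring
              rw [this, hkZ]; ring
            rw [h1]; ring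
          have wk : wD m k = 2 * ((m : ℤ) - 2) * (m + 1) := by
            unfold wD
            rw [if_pos (by omega), hkZ]; ring
          -- the leaves are not in the block of 1
          have hsum1 : (uD m r 1 (m - 2) = 0 ∧ uD m r 1 (m - 1) = 0) ∨
              uD m r 1 (m - 2) + uD m r 1 (m - 1) = (m : ℤ) * (m - 1) := by
            by_cases ha : r (m - 2) 1
            · have hb : ¬ r (m - 1) 1 := fun h => hnot 1 ⟨ha, h⟩
              right
              rw [uD_of ha, uD_of_not hb, lf2, add_zero]
            · by_cases hb : r (m - 1) 1
              · right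
                rw [uD_of_not ha, uD_of hb, lf1, zero_add]
              · left
                exact ⟨uD_of_not ha, uD_of_not hb⟩
          have hk2 : m = 5 := by
            rcases hsum1 with ⟨ha, hb⟩ | hab
            · rw [ha, hb] at k1
              rcases hval 1 (k - 1) with hc | hc <;> rw [hc] at k1
              · rw [w1] at k1; linarith
              · rw [wk1, w1] at k1
                have h1 : ((m : ℤ) - 5) * m = 0 := by linarith
                rcases mul_eq_zero.mp h1 with h | h
                · omega
                · omega
            · have k1' : (if k = 0 then 0 else uD m r 1 (k - 1)) + (m : ℤ) * (m - 1) = wD m 1 := by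
                rw [if_neg hkne]; linarith
              rw [if_neg hkne] at k1'
              exfalso
              rcases hval 1 (k - 1) with hc | hc <;> rw [hc] at k1'
              · rw [w1] at k1'
                -- m² - 9 m + 12 = 0
                have h1 : (m : ℤ) * (9 - m) = 12 := by linarith
                have h2 : m < 9 := by
                  by_contra h
                  have : (9 : ℤ) ≤ m := by exact_mod_cast (not_lt.mp h)
                  nlinarith
                interval_cases m <;> omega
              · rw [wk1, w1] at k1'
                have h1 : (m : ℤ) * (3 * m - 11) = 0 := by linarith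
                rcases mul_eq_zero.mp h1 with h | h
                · omega
                · omega
          subst hk2
          have hk2' : k = 2 := by omega
          subst hk2'
          have e0 : uD 5 r 0 (2 - 1) = 0 := uD_of_not h10
          rw [e0] at k2
          have v2 : wD 5 2 = 36 := by norm_num [wD]
          have v0 : wD 5 0 = 16 := by norm_num [wD]
          have v3 : wD 5 (5 - 2) = 20 := by norm_num [wD]
          have v4 : wD 5 (5 - 1) = 20 := by norm_num [wD]
          rw [v2, v0] at k2
          by_cases ha : r (5 - 2) 0
          · have hb : ¬ r (5 - 1) 0 := fun h => hnot 0 ⟨ha, h⟩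
            rw [uD_of ha, uD_of_not hb, v3] at k2
            norm_num at k2
          · by_cases hb : r (5 - 1) 0
            · rw [uD_of_not ha, uD_of hb, v4] at k2
              norm_num at k2
            · rw [uD_of_not ha, uD_of_not hb] at k2
              norm_num at k2
  -- induction
  have hind : ∀ k, k + 3 ≤ m → ∀ i, i < m → r i k → i = k := by
    intro k
    induction k using Nat.strong_induction_on with
    | _ k ih =>
      intro hk i hi hik
      rcases Nat.eq_zero_or_pos k with hk0 | hk0
      · subst hk0
        exact hzero i hi hik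
      by_contra hne
      have hlow : k < i := by
        by_contra hlt
        have hlt' : i < k := by omega
        exact hne (ih i hlt' (by omega) k (by omega) (symm _ _ hik)).symm
      have hs : ∀ t, t < m → r t (k - 1) → t = k - 1 := ih (k - 1) (by omega) (by omega)
      have h1 := hN (k - 1) (by omega) i hi k (by omega) hik
      have hz : ∀ t, t < m → t ≠ k - 1 → uD m r (k - 1) t = 0 := fun t ht hne =>
        uD_of_not fun h => hne (hs t ht h)
      have h2 : cartD m (uD m r (k - 1)) k = -wD m (k - 1) := by
        unfold cartD
        have hk1 : uD m r (k - 1) (k - 1) = wD m (k - 1) := uD_of (refl _)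
        rcases Nat.lt_or_ge (k + 3) m with hlt | hge
        · rw [if_pos hlt, if_neg (by omega), hz k (by omega) (by omega),
            hz (k + 1) (by omega) (by omega), hk1]
          ring
        · rw [if_neg (by omega), if_pos (by omega), if_neg (by omega),
            hz k (by omega) (by omega), hz (m - 2) (by omega) (by omega),
            hz (m - 1) (by omega) (by omega), hk1]
          ring
      have h3 : cartD m (uD m r (k - 1)) i = 0 := by
        unfold cartD
        rcases Nat.lt_or_ge (i + 3) m with hlt | hge
        · rw [if_pos hlt, if_neg (by omega), hz i hi (by omega),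
            hz (i - 1) (by omega) (by omega), hz (i + 1) (by omega) (by omega)]
          ring
        · rcases Nat.lt_or_ge m (i + 3) with hlt2 | hge2
          · rw [if_neg (by omega), if_neg (by omega), if_pos (by omega), hz i hi (by omega),
              hz (m - 3) (by omega) (by omega)]
            ring
          · rw [if_neg (by omega), if_pos (by omega), if_neg (by omega), hz i hi (by omega),
              hz (i - 1) (by omega) (by omega), hz (m - 2) (by omega) (by omega),
              hz (m - 1) (by omega) (by omega)]
            ring
      have h4 := wD_pos (m := m) (i := k - 1) hm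
      rw [h2, h3] at h1
      linarith
  intro i hi k hk hik
  rcases Nat.lt_or_ge m (k + 3) with h | h
  · rcases Nat.lt_or_ge m (i + 3) with h' | h'
    · by_contra hne
      have h1 : (i = m - 2 ∧ k = m - 1) ∨ (i = m - 1 ∧ k = m - 2) := by omega
      rcases h1 with ⟨rfl, rfl⟩ | ⟨rfl, rfl⟩
      · exact hsep hik
      · exact hsep (symm _ _ hik)
    · exact (hind i h' k hk (symm _ _ hik)).symm
  · exact hind k h i hi hik

end MTC
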