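import Mathlib

/-!
# The degree one part of a graded Lie algebra: abstract combinatorial part

`A` is a symmetric positive definite integral matrix (a Cartan matrix of simply laced type).
-/

set_option autoImplicit false
set_option linter.unusedSectionVars false

namespace MTC

variable {K : Type} [Field K] {ι : Type} [Fintype ι]

/-- the action of the matrix `A` on functions -/
def cart (A : ι → ι → ℤ) (u : ι → K) : ι → K := fun i => ∑ j, (A i j : K) * u j

/-- positive definite -/
def PD (A : ι → ι → ℤ) : Prop :=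
  (∀ i j, A i j = A j i) ∧
    ∀ x : ι → ℚ, x ≠ 0 → 0 < ∑ i, x i * ∑ j, (A i j : ℚ) * x j

theorem cart_add (A : ι → ι → ℤ) (u v : ι → K) : cart A (u + v) = cart A u + cart A v := by
  ext i
  simp only [cart, Pi.add_apply, mul_add, Finset.sum_add_distrib]

theorem cart_smul (A : ι → ι → ℤ) (c : K) (u : ι → K) : cart A (c • u) = c • cart A u := by
  ext i
  simp only [cart, Pi.smul_apply, smul_eq_mul, Finset.mul_sum]
  exact Finset.sum_congr rfl fun j _ => by ring

theorem cart_sub (A : ι → ι → ℤ) (u v : ι → K) : cart A (u - v) = cart A u - cart A v := by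
  ext i
  simp only [cart, Pi.sub_apply, mul_sub, Finset.sum_sub_distrib]

/-- the principal submatrix -/
def sub (A : ι → ι → ℤ) (b : ι → Prop) (F : Type) [Field F] :
    Matrix {i // b i} {i // b i} F := Matrix.of fun i j => (A i j : F)

open Classical in
/-- extension by zero -/
noncomputable def ext0 {F : Type} [Field F] (b : ι → Prop) (x : {i // b i} → F) : ι → F :=
  fun i => if h : b i then x ⟨i, h⟩ else 0

open Classical in
theorem sum_ext0 {F : Type} [Field F] (b : ι → Prop) (f : ι → F) (hf : ∀ i, ¬ b i → f i = 0) :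
    ∑ i, f i = ∑ i : {i // b i}, f i := by
  rw [← Fintype.sum_subtype_add_sum_subtype b f]
  have : ∑ i : {i // ¬ b i}, f i = 0 := Finset.sum_eq_zero fun i _ => hf i i.2
  rw [this, add_zero]

open Classical in
theorem sub_mulVec (A : ι → ι → ℤ) (b : ι → Prop) (F : Type) [Field F] (u : ι → F)
    (hu : ∀ i, ¬ b i → u i = 0) (i : {i // b i}) :
    (sub A b F).mulVec (fun j => u j) i = cart A u i := by
  simp only [Matrix.mulVec, dotProduct, sub, Matrix.of_apply, cart]
  rw [sum_ext0 b (fun j => (A i j : F) * u j) (fun j hj => by simp only [hu j hj, mul_zero])]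

open Classical in
theorem sub_det_ne {A : ι → ι → ℤ} (hA : PD A) (b : ι → Prop) : (sub A b ℚ).det ≠ 0 := by
  intro h
  obtain ⟨x, hx, hx'⟩ := Matrix.exists_mulVec_eq_zero_iff.mpr h
  have h1 : ext0 b x ≠ 0 := by
    intro h2
    apply hx
    ext i
    have h3 := congrFun h2 i
    simpa [ext0, i.2] using h3
  have h2 := hA.2 _ h1
  have h3 : ∀ i, ¬ b i → ext0 b x i = 0 := fun i hi => by simp [ext0, hi]
  have h4 : ∀ i, ext0 b x i * ∑ j, (A i j : ℚ) * ext0 b x j = 0 := by
    intro i
    by_cases hi : b i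
    · have h5 := sub_mulVec A b ℚ (ext0 b x) h3 ⟨i, hi⟩
      have h6 : (fun j : {i // b i} => ext0 b x j) = x := by
        ext j
        simp [ext0, j.2]
      rw [h6, hx'] at h5
      have h7 : ∑ j, (A i j : ℚ) * ext0 b x j = 0 := h5.symm
      rw [h7, mul_zero]
    · rw [h3 i hi, zero_mul]
  rw [Finset.sum_eq_zero fun i _ => h4 i] at h2
  exact lt_irrefl _ h2

open Classical in
theorem sub_det_ne' [CharZero K] {A : ι → ι → ℤ} (hA : PD A) (b : ι → Prop) :
    (sub A b K).det ≠ 0 := by
  have h1 : sub A b K = (sub A b ℚ).map (algebraMap ℚ K) := by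
    ext i j
    simp [sub]
  rw [h1, ← RingHom.mapMatrix_apply, ← RingHom.map_det]
  exact fun h => sub_det_ne hA b ((map_eq_zero _).mp h)

/-- `A` is injective on functions supported on `b` -/
theorem cart_inj [CharZero K] {A : ι → ι → ℤ} (hA : PD A) {b : ι → Prop} {u : ι → K}
    (hu : ∀ i, ¬ b i → u i = 0) (h : ∀ i, b i → cart A u i = 0) : u = 0 := by
  classical
  have h1 : (sub A b K).mulVec (fun j => u j) = 0 := by
    ext i
    rw [sub_mulVec A b K u hu, h i i.2]
    rfl
  have h2 := Matrix.eq_zero_of_mulVec_eq_zero (sub_det_ne' (K := K) hA b) h1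
  ext i
  by_cases hi : b i
  · exact congrFun h2 ⟨i, hi⟩
  · exact hu i hi

/-- the solution of `A v = 1` on `b` -/
theorem exists_v {A : ι → ι → ℤ} (hA : PD A) (b : ι → Prop) :
    ∃ v : ι → ℚ, (∀ i, ¬ b i → v i = 0) ∧ (∀ i, b i → cart A v i = 1) ∧
      ((∃ i, b i) → 0 < ∑ i, v i) := by
  classical
  have hd := sub_det_ne hA b
  have hu : IsUnit (sub A b ℚ).det := isUnit_iff_ne_zero.mpr hd
  let x : {i // b i} → ℚ := (sub A b ℚ)⁻¹.mulVec 1
  have hx : (sub A b ℚ).mulVec x = 1 := by
    rw [Matrix.mulVec_mulVec, Matrix.mul_nonsing_inv _ hu, Matrix.one_mulVec]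
  have h3 : ∀ i, ¬ b i → ext0 b x i = 0 := fun i hi => by simp [ext0, hi]
  have h6 : (fun j : {i // b i} => ext0 b x j) = x := by
    ext j
    simp [ext0, j.2]
  have h4 : ∀ i, b i → cart A (ext0 b x) i = 1 := by
    intro i hi
    have h5 := sub_mulVec A b ℚ (ext0 b x) h3 ⟨i, hi⟩
    rw [h6, hx] at h5
    exact h5.symm
  refine ⟨ext0 b x, h3, h4, ?_⟩
  rintro ⟨i₀, hi₀⟩
  have h1 : ext0 b x ≠ 0 := by
    intro h2
    have h7 := h4 i₀ hi₀
    rw [h2] at h7
    simp [cart] at h7
  have h2 := hA.2 _ h1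
  have h8 : ∑ i, ext0 b x i * ∑ j, (A i j : ℚ) * ext0 b x j = ∑ i, ext0 b x i := by
    apply Finset.sum_congr rfl
    intro i _
    by_cases hi : b i
    · have h9 : ∑ j, (A i j : ℚ) * ext0 b x j = 1 := h4 i hi
      rw [h9, mul_one]
    · rw [h3 i hi, zero_mul]
  rwa [h8] at h2

/-- the structure of the parts of degree `1`, `0`, `-1` -/
structure TriA (A : ι → ι → ℤ) (W1 W0 Wm : Submodule K (ι → K)) : Prop where
  one1 : (1 : ι → K) ∈ W1
  one0 : (1 : ι → K) ∈ W0
  mul1 : ∀ z ∈ W0, ∀ u ∈ W1, z * u ∈ W1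
  mulm : ∀ z ∈ W0, ∀ u ∈ Wm, z * u ∈ Wm
  brk : ∀ s ∈ W1, ∀ y ∈ Wm, cart A (s * y) ∈ W0

/-- the blocks of `W0` -/
def Rel (W0 : Submodule K (ι → K)) (i j : ι) : Prop := ∀ z ∈ W0, z i = z j

theorem Rel.rfl' {W0 : Submodule K (ι → K)} (i : ι) : Rel W0 i i := fun _ _ => rfl

theorem Rel.symm' {W0 : Submodule K (ι → K)} {i j : ι} (h : Rel W0 i j) : Rel W0 j i :=
  fun z hz => (h z hz).symm

theorem Rel.trans' {W0 : Submodule K (ι → K)} {i j k : ι} (h : Rel W0 i j) (h' : Rel W0 j k) :
    Rel W0 i k := fun z hz => (h z hz).trans (h' z hz)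

open Classical in
/-- multiplication by the indicator function of a block -/
noncomputable def blk (W0 : Submodule K (ι → K)) (c : ι) (u : ι → K) : ι → K :=
  fun i => if Rel W0 i c then u i else 0

theorem blk_of {W0 : Submodule K (ι → K)} {c i : ι} (u : ι → K) (h : Rel W0 i c) :
    blk W0 c u i = u i := by
  simp [blk, h]

theorem blk_of_not {W0 : Submodule K (ι → K)} {c i : ι} (u : ι → K) (h : ¬ Rel W0 i c) :
    blk W0 c u i = 0 := by
  simp [blk, h]

theorem blk_idem (W0 : Submodule K (ι → K)) (c : ι) (y : ι → K) :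
    blk W0 c (blk W0 c y) = blk W0 c y := by
  ext i
  by_cases h : Rel W0 i c
  · rw [blk_of _ h]
  · rw [blk_of_not _ h, blk_of_not y h]

/-- a subspace stable under multiplication by `W0` is stable under the projections to blocks -/
theorem blk_mem {W0 R : Submodule K (ι → K)} (h0 : (1 : ι → K) ∈ W0)
    (hmul : ∀ z ∈ W0, ∀ u ∈ R, z * u ∈ R) (c : ι) {u : ι → K} (hu : u ∈ R) :
    blk W0 c u ∈ R := by
  classical
  let M : Set (ι → K) := {φ | ∀ v ∈ R, φ * v ∈ R}
  have hM1 : (1 : ι → K) ∈ M := fun v hv => by rwa [one_mul]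
  have hMmul : ∀ φ ∈ M, ∀ ψ ∈ M, φ * ψ ∈ M := fun φ hφ ψ hψ v hv => by
    rw [mul_assoc]
    exact hφ _ (hψ v hv)
  have hsep : ∀ j, ¬ Rel W0 j c → ∃ φ ∈ M, (∀ i, Rel W0 i c → φ i = 1) ∧ φ j = 0 := by
    intro j hjc
    unfold Rel at hjc
    push Not at hjc
    obtain ⟨z, hz, hzj⟩ := hjc
    have hne : z c - z j ≠ 0 := sub_ne_zero.mpr (Ne.symm hzj)
    refine ⟨(z c - z j)⁻¹ • (z - z j • (1 : ι → K)), ?_, ?_, ?_⟩
    · intro v hv
      rw [smul_mul_assoc, sub_mul, smul_mul_assoc]
      exact R.smul_mem _ (R.sub_mem (hmul z hz v hv) (R.smul_mem _ (hmul _ h0 v hv)))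
    · intro i hic
      simp only [Pi.smul_apply, Pi.sub_apply, Pi.one_apply, smul_eq_mul, mul_one]
      rw [hic z hz]
      exact inv_mul_cancel₀ hne
    · simp only [Pi.smul_apply, Pi.sub_apply, Pi.one_apply, smul_eq_mul, mul_one, sub_self,
        mul_zero]
  have hfin : ∀ J : Finset ι, (∀ j ∈ J, ¬ Rel W0 j c) →
      ∃ φ ∈ M, (∀ i, Rel W0 i c → φ i = 1) ∧ ∀ j ∈ J, φ j = 0 := by
    intro J
    induction J using Finset.induction_on with
    | empty => exact fun _ => ⟨1, hM1, fun _ _ => rfl, fun j hj => absurd hj (by simp)⟩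
    | insert a J ha ih =>
      intro hJ
      obtain ⟨φ, hφ, h1, h2⟩ := ih (fun j hj => hJ j (Finset.mem_insert_of_mem hj))
      obtain ⟨ψ, hψ, h3, h4⟩ := hsep a (hJ a (Finset.mem_insert_self _ _))
      refine ⟨φ * ψ, hMmul φ hφ ψ hψ, fun i hic => ?_, fun j hj => ?_⟩
      · rw [Pi.mul_apply, h1 i hic, h3 i hic, mul_one]
      · rw [Pi.mul_apply]
        rcases Finset.mem_insert.mp hj with rfl | hj
        · rw [h4, mul_zero]
        · rw [h2 j hj, zero_mul]
  obtain ⟨φ, hφ, h1, h2⟩ := hfin (Finset.univ.filter fun j => ¬ Rel W0 j c) (by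
    intro j hj
    rw [Finset.mem_filter] at hj
    exact hj.2)
  have h3 : φ * u = blk W0 c u := by
    ext i
    rw [Pi.mul_apply]
    by_cases hic : Rel W0 i c
    · rw [h1 i hic, one_mul, blk_of u hic]
    · rw [h2 i (by rw [Finset.mem_filter]; exact ⟨Finset.mem_univ _, hic⟩), zero_mul,
        blk_of_not u hic]
  rw [← h3]
  exact hφ u hu

theorem W0_le_W1 {A : ι → ι → ℤ} {W1 W0 Wm : Submodule K (ι → K)} (T : TriA A W1 W0 Wm) :
    W0 ≤ W1 := by
  intro z hz
  have h1 := T.mul1 z hz _ T.one1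
  rwa [mul_one] at h1

theorem cart_mem {A : ι → ι → ℤ} {W1 W0 Wm : Submodule K (ι → K)} (T : TriA A W1 W0 Wm)
    {u : ι → K} (hu : u ∈ Wm) : cart A u ∈ W0 := by
  have h1 := T.brk _ T.one1 u hu
  rwa [one_mul] at h1

/-- on a block the elements of `Wm` are determined up to a factor -/
theorem blk_key [CharZero K] {A : ι → ι → ℤ} (hA : PD A) {W1 W0 Wm : Submodule K (ι → K)}
    (T : TriA A W1 W0 Wm) (c : ι) {u : ι → K} (hu : u ∈ Wm) (hb : blk W0 c u = u)
    {v : ι → ℚ} (hv : ∀ i, ¬ Rel W0 i c → v i = 0) (hv1 : ∀ i, Rel W0 i c → cart A v i = 1) :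
    ∀ i, u i = cart A u c * (v i : K) := by
  have hcu := cart_mem T hu
  have h1 : u - cart A u c • (fun i => (v i : K)) = 0 := by
    apply cart_inj hA (b := fun i => Rel W0 i c)
    · intro i hi
      rw [Pi.sub_apply, Pi.smul_apply, hv i hi, Rat.cast_zero, smul_zero, sub_zero, ← hb,
        blk_of_not u hi]
    · intro i hi
      rw [cart_sub, cart_smul, Pi.sub_apply, Pi.smul_apply]
      have h2 : cart A (fun i => (v i : K)) i = ((cart A v i : ℚ) : K) := by
        simp only [cart]
        push_cast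
        rfl
      rw [h2, hv1 i hi, hi _ hcu]
      simp
  intro i
  have h2 := congrFun h1 i
  rw [Pi.sub_apply, Pi.smul_apply, smul_eq_mul, Pi.zero_apply, sub_eq_zero] at h2
  exact h2

/-- the radical in degree `-1` is zero -/
theorem radical_zero [CharZero K] {A : ι → ι → ℤ} (hA : PD A) {W1 W0 Wm R : Submodule K (ι → K)}
    (T : TriA A W1 W0 Wm) (hR : R ≤ Wm) (hmul : ∀ z ∈ W0, ∀ u ∈ R, z * u ∈ R)
    (horth : ∀ s ∈ W1, ∀ y ∈ R, ∑ i, s i * y i = 0) : ∀ y ∈ R, y = 0 := by
  intro y hy
  ext c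
  set u := blk W0 c y with hu
  have huR : u ∈ R := blk_mem T.one0 hmul c hy
  have hbu : blk W0 c u = u := blk_idem W0 c y
  obtain ⟨v, hv, hv1, hv2⟩ := exists_v hA (fun i => Rel W0 i c)
  have hkey := blk_key hA T c (hR huR) hbu hv hv1
  have hsum := horth _ T.one1 u huR
  have h1 : cart A u c * ((∑ i, v i : ℚ) : K) = 0 := by
    rw [← hsum, Rat.cast_sum, Finset.mul_sum]
    apply Finset.sum_congr rfl
    intro i _
    rw [Pi.one_apply, one_mul, hkey i]
  have h2 : ((∑ i, v i : ℚ) : K) ≠ 0 := by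
    have h3 := hv2 ⟨c, Rel.rfl' c⟩
    exact_mod_cast h3.ne'
  have h3 : cart A u c = 0 := by
    rcases mul_eq_zero.mp h1 with h | h
    · exact h
    · exact absurd h h2
  have h4 := hkey c
  rw [h3, zero_mul, hu, blk_of y (Rel.rfl' c)] at h4
  exact h4

/-- the structure if the pairing is non-degenerate: `W1` consists of all functions constant on the
blocks, and the solution `w` of `A w = const` satisfies that `A (1_b w)` is constant on blocks -/
theorem tri_main [CharZero K] {A : ι → ι → ℤ} (hA : PD A) {W1 W0 Wm : Submodule K (ι → K)}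
    (T : TriA A W1 W0 Wm)
    (hnd1 : ∀ s ∈ W1, (∀ y ∈ Wm, ∑ i, s i * y i = 0) → s = 0)
    {w : ι → K} {κ : K} (hw : ∀ i, cart A w i = κ) :
    (∀ s : ι → K, s ∈ W1 ↔ ∀ i j, Rel W0 i j → s i = s j) ∧ W1 ≤ W0 ∧ w ∈ Wm := by
  classical
  choose v hv hv1 hv2 using fun c : ι => exists_v hA (fun i => Rel W0 i c)
  have hblkv : ∀ c i, ¬ Rel W0 i c → ((v c i : ℚ) : K) = 0 := fun c i h => by
    rw [hv c i h, Rat.cast_zero]
  have hsumv : ∀ c, ((∑ i, v c i : ℚ) : K) ≠ 0 := fun c => by
    have h3 := hv2 c ⟨c, Rel.rfl' c⟩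
    exact_mod_cast h3.ne'
  -- `v c ∈ Wm`
  have hvW : ∀ c, (fun i => ((v c i : ℚ) : K)) ∈ Wm := by
    intro c
    have heW : blk W0 c (1 : ι → K) ∈ W1 := blk_mem T.one0 T.mul1 c T.one1
    have hex : ∃ y ∈ Wm, ∑ i, blk W0 c (1 : ι → K) i * y i ≠ 0 := by
      by_contra hcon
      push Not at hcon
      have h1 := congrFun (hnd1 _ heW hcon) c
      rw [blk_of _ (Rel.rfl' c)] at h1
      exact one_ne_zero h1
    obtain ⟨y, hy, hysum⟩ := hex
    set u := blk W0 c y with hu
    have huW : u ∈ Wm := blk_mem T.one0 T.mulm c hy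
    have hkey := blk_key hA T c huW (blk_idem W0 c y) (hv c) (hv1 c)
    have hne : cart A u c ≠ 0 := by
      intro h0
      apply hysum
      apply Finset.sum_eq_zero
      intro i _
      by_cases h : Rel W0 i c
      · have h2 := hkey i
        rw [h0, zero_mul, hu, blk_of y h] at h2
        rw [h2, mul_zero]
      · rw [blk_of_not _ h, zero_mul]
    have h1 : (fun i => ((v c i : ℚ) : K)) = (cart A u c)⁻¹ • u := by
      ext i
      rw [Pi.smul_apply, smul_eq_mul, hkey i, ← mul_assoc, inv_mul_cancel₀ hne, one_mul]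
    rw [h1]
    exact Wm.smul_mem _ huW
  -- functions in `W1` are constant on blocks
  have hconst : ∀ s ∈ W1, ∀ i j, Rel W0 i j → s i = s j := by
    intro s hs i j hij
    set l : K := (∑ k, s k * ((v j k : ℚ) : K)) / ((∑ k, v j k : ℚ) : K) with hl
    set s' : ι → K := blk W0 j s - l • blk W0 j (1 : ι → K) with hs'
    have hs'W : s' ∈ W1 := W1.sub_mem (blk_mem T.one0 T.mul1 j hs)
      (W1.smul_mem _ (blk_mem T.one0 T.mul1 j T.one1))
    have h0 : s' = 0 := by
      apply hnd1 _ hs'W
      intro y hy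
      have hkey := blk_key hA T j (blk_mem T.one0 T.mulm j hy) (blk_idem W0 j y) (hv j) (hv1 j)
      set a := cart A (blk W0 j y) j with ha
      have h1 : ∀ k, s' k * y k = a * (s k * ((v j k : ℚ) : K)) - a * (l * ((v j k : ℚ) : K)) := by
        intro k
        by_cases h : Rel W0 k j
        · have h2 := hkey k
          rw [blk_of y h] at h2
          rw [hs', Pi.sub_apply, Pi.smul_apply, blk_of s h, blk_of _ h, Pi.one_apply, smul_eq_mul,
            mul_one, h2]
          ring
        · rw [hs', Pi.sub_apply, Pi.smul_apply, blk_of_not s h, blk_of_not _ h, hblkv j k h]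
          simp
      rw [Finset.sum_congr rfl fun k _ => h1 k, Finset.sum_sub_distrib, ← Finset.mul_sum,
        ← Finset.mul_sum, ← Finset.mul_sum, ← Rat.cast_sum, hl, div_mul_cancel₀ _ (hsumv j),
        sub_self]
    have h1 := congrFun h0 i
    have h2 := congrFun h0 j
    rw [hs', Pi.sub_apply, Pi.smul_apply, blk_of s hij, blk_of _ hij, Pi.zero_apply, Pi.one_apply,
      sub_eq_zero] at h1
    rw [hs', Pi.sub_apply, Pi.smul_apply, blk_of s (Rel.rfl' j), blk_of _ (Rel.rfl' j),
      Pi.zero_apply, Pi.one_apply, sub_eq_zero] at h2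
    rw [h1, h2]
  -- all functions constant on blocks are in `W1`
  have hall : ∀ s : ι → K, (∀ i j, Rel W0 i j → s i = s j) → ∀ R : Submodule K (ι → K),
      (∀ c, blk W0 c (1 : ι → K) ∈ R) → s ∈ R := by
    intro s hs R hR
    let N : ι → ℕ := fun c => (Finset.univ.filter fun i => Rel W0 i c).card
    have hN : ∀ c, (N c : K) ≠ 0 := by
      intro c
      have h1 : 0 < N c := Finset.card_pos.mpr ⟨c, by
        rw [Finset.mem_filter]; exact ⟨Finset.mem_univ _, Rel.rfl' c⟩⟩
      exact_mod_cast h1.ne'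
    have hs' : s = ∑ c, (s c * (N c : K)⁻¹) • blk W0 c (1 : ι → K) := by
      ext i
      rw [Finset.sum_apply]
      have h1 : ∀ c ∈ Finset.univ, ((s c * (N c : K)⁻¹) • blk W0 c (1 : ι → K)) i =
          if Rel W0 c i then s i * (N i : K)⁻¹ else 0 := by
        intro c _
        rw [Pi.smul_apply, smul_eq_mul]
        by_cases hic : Rel W0 i c
        · rw [blk_of _ hic, if_pos (Rel.symm' hic), Pi.one_apply, mul_one, hs i c hic]
          have h3 : N c = N i := by
            apply congrArg Finset.card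
            ext j
            simp only [Finset.mem_filter, Finset.mem_univ, true_and]
            exact ⟨fun b => Rel.trans' b (Rel.symm' hic), fun b => Rel.trans' b hic⟩
          rw [h3]
        · rw [blk_of_not _ hic, if_neg (fun h => hic (Rel.symm' h)), mul_zero]
      rw [Finset.sum_congr rfl h1, ← Finset.sum_filter, Finset.sum_const, nsmul_eq_mul]
      have h4 := hN i
      change s i = (N i : K) * (s i * (N i : K)⁻¹)
      field_simp
    rw [hs']
    exact R.sum_mem fun c _ => R.smul_mem _ (hR c)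
  have hW1 : ∀ s : ι → K, s ∈ W1 ↔ ∀ i j, Rel W0 i j → s i = s j := fun s =>
    ⟨hconst s, fun h => hall s h W1 fun c => blk_mem T.one0 T.mul1 c T.one1⟩
  -- dimension argument
  let L : (ι → K) →ₗ[K] (ι → K) :=
    { toFun := cart A, map_add' := cart_add A, map_smul' := cart_smul A }
  have hLinj : Function.Injective L := by
    intro x y hxy
    have h1 : x - y = 0 := by
      apply cart_inj hA (b := fun _ => True)
      · exact fun i hi => absurd trivial hi
      · intro i _
        rw [cart_sub, Pi.sub_apply]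
        have h2 : cart A x i = cart A y i := congrFun hxy i
        rw [h2, sub_self]
    exact sub_eq_zero.mp h1
  -- `finrank W1 ≤ finrank Wm` by non-degeneracy
  let B : W1 →ₗ[K] (Module.Dual K Wm) :=
    { toFun := fun s =>
        { toFun := fun y => ∑ i, (s : ι → K) i * (y : ι → K) i
          map_add' := fun y y' => by
            rw [← Finset.sum_add_distrib]
            exact Finset.sum_congr rfl fun i _ => by
              rw [Submodule.coe_add, Pi.add_apply]; ring
          map_smul' := fun a y => by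
            rw [RingHom.id_apply, smul_eq_mul, Finset.mul_sum]
            exact Finset.sum_congr rfl fun i _ => by
              rw [Submodule.coe_smul, Pi.smul_apply, smul_eq_mul]; ring }
      map_add' := fun s s' => by
        ext y
        simp only [LinearMap.coe_mk, AddHom.coe_mk, LinearMap.add_apply]
        rw [← Finset.sum_add_distrib]
        exact Finset.sum_congr rfl fun i _ => by
          rw [Submodule.coe_add, Pi.add_apply]; ring
      map_smul' := fun a s => by
        ext y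
        simp only [LinearMap.coe_mk, AddHom.coe_mk, LinearMap.smul_apply, RingHom.id_apply,
          smul_eq_mul]
        rw [Finset.mul_sum]
        exact Finset.sum_congr rfl fun i _ => by
          rw [Submodule.coe_smul, Pi.smul_apply, smul_eq_mul]; ring }
  have hBinj : Function.Injective B := by
    rw [← LinearMap.ker_eq_bot, LinearMap.ker_eq_bot']
    rintro ⟨s, hs⟩ h
    apply Subtype.ext
    apply hnd1 s hs
    intro y hy
    exact LinearMap.congr_fun h ⟨y, hy⟩
  have hd1 : Module.finrank K W1 ≤ Module.finrank K Wm := by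
    rw [← Subspace.dual_finrank_eq (K := K) (V := Wm)]
    exact LinearMap.finrank_le_finrank_of_injective hBinj
  have hmap : Wm.map L ≤ W0 := by
    rintro _ ⟨y, hy, rfl⟩
    exact cart_mem T hy
  have hd2 : Module.finrank K (Wm.map L) = Module.finrank K Wm :=
    (Submodule.equivMapOfInjective L hLinj Wm).symm.finrank_eq
  have hmapeq : Wm.map L = W1 := by
    apply Submodule.eq_of_le_of_finrank_le (hmap.trans (W0_le_W1 T))
    rw [hd2]
    exact hd1
  have h10 : W1 ≤ W0 := by rw [← hmapeq]; exact hmap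
  refine ⟨hW1, h10, ?_⟩
  have h1 : L w ∈ Wm.map L := by
    rw [hmapeq, hW1]
    intro i j _
    change cart A w i = cart A w j
    rw [hw, hw]
  obtain ⟨y, hy, hyw⟩ := h1
  rw [← hLinj hyw]
  exact hy

end MTC
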