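import Pool.Agent.Helper56.MTC.Grd
import Pool.Agent.Helper56.MTC.TriA
import Pool.Agent.Helper56.MTC.PartD

/-!
# The Lie algebra `so_2m`: root vectors
-/

set_option autoImplicit false
set_option linter.unusedSectionVars false

namespace MTC

variable {K : Type} [Field K] {m : ℕ}

/-- the index set of the standard representation -/
abbrev JD (m : ℕ) : Type := Fin m ⊕ Fin m

/-- the involution of the index set -/
def bar : JD m → JD m
  | Sum.inl i => Sum.inr i
  | Sum.inr i => Sum.inl i

/-- the principal grading -/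
def degD (m : ℕ) : JD m → ℤ
  | Sum.inl i => (m : ℤ) - 1 - ((i : ℕ) : ℤ)
  | Sum.inr i => ((i : ℕ) : ℤ) - m + 1

@[simp] theorem bar_inl (i : Fin m) : bar (Sum.inl i) = Sum.inr i := rfl
@[simp] theorem bar_inr (i : Fin m) : bar (Sum.inr i) = Sum.inl i := rfl
@[simp] theorem bar_bar (a : JD m) : bar (bar a) = a := by cases a <;> rfl
@[simp] theorem degD_inl (i : Fin m) : degD m (Sum.inl i) = (m : ℤ) - 1 - ((i : ℕ) : ℤ) := rfl
@[simp] theorem degD_inr (i : Fin m) : degD m (Sum.inr i) = ((i : ℕ) : ℤ) - m + 1 := rfl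

theorem bar_inj {a b : JD m} : bar a = bar b ↔ a = b :=
  ⟨fun h => by have := congrArg bar h; simpa using this, fun h => by rw [h]⟩

theorem bar_eq {a b : JD m} : bar a = b ↔ a = bar b :=
  ⟨fun h => by rw [← h, bar_bar], fun h => by rw [h, bar_bar]⟩

theorem degD_bar (a : JD m) : degD m (bar a) = -degD m a := by
  cases a <;> simp <;> ring

/-- skew for the symmetric form `ψ (e_a, e_(bar a)) = 1` -/
def Sk (X : Matrix (JD m) (JD m) K) : Prop := ∀ a b, X a b = -X (bar b) (bar a)

/-- the elementary skew matrices -/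
def MM (a b : JD m) : Matrix (JD m) (JD m) K :=
  Matrix.single a b 1 - Matrix.single (bar b) (bar a) 1

theorem MM_apply (a b p q : JD m) : (MM a b : Matrix (JD m) (JD m) K) p q =
    (if a = p ∧ b = q then 1 else 0) - (if bar b = p ∧ bar a = q then 1 else 0) := by
  rw [MM, Matrix.sub_apply, Matrix.single_apply, Matrix.single_apply]

theorem ss (a b c d : JD m) : (Matrix.single a b 1 * Matrix.single c d 1 :
    Matrix (JD m) (JD m) K) = if b = c then Matrix.single a d 1 else 0 := by
  split_ifs with h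
  · subst h
    rw [Matrix.single_mul_single_same, mul_one]
  · rw [Matrix.single_mul_single_of_ne (h := h)]

theorem MM_bar (a b : JD m) : (MM (bar b) (bar a) : Matrix (JD m) (JD m) K) = -MM a b := by
  rw [MM, MM, bar_bar, bar_bar, neg_sub]

theorem MM_self (a : JD m) : (MM a (bar a) : Matrix (JD m) (JD m) K) = 0 := by
  rw [MM, bar_bar, sub_self]

theorem sk_MM (a b : JD m) : Sk (MM a b : Matrix (JD m) (JD m) K) := by
  intro p q
  rw [MM_apply, MM_apply]
  have h1 : (a = bar q ∧ b = bar p) ↔ (bar b = p ∧ bar a = q) := by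
    rw [bar_eq, bar_eq]
    exact ⟨fun h => ⟨h.2, h.1⟩, fun h => ⟨h.2, h.1⟩⟩
  have h2 : (bar b = bar q ∧ bar a = bar p) ↔ (a = p ∧ b = q) := by
    rw [bar_inj, bar_inj]
    exact ⟨fun h => ⟨h.2, h.1⟩, fun h => ⟨h.2, h.1⟩⟩
  simp only [h1, h2]
  ring

theorem bk_MM (a b c d : JD m) : bk (MM a b : Matrix (JD m) (JD m) K) (MM c d) =
    (if b = c then MM a d else 0) - (if a = d then MM c b else 0)
      - (if b = bar d then MM a (bar c) else 0) - (if bar a = c then MM (bar b) d else 0) := by
  have e1 : (d = a) ↔ (a = d) := eq_comm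
  have e2 : (bar a = bar d) ↔ (a = d) := bar_inj
  have e3 : (d = bar b) ↔ (b = bar d) := ⟨fun h => by rw [h, bar_bar], fun h => by rw [h, bar_bar]⟩
  have e4 : (bar c = a) ↔ (bar a = c) := ⟨fun h => by rw [← h, bar_bar], fun h => by rw [← h, bar_bar]⟩
  have e5 : (bar c = bar b) ↔ (b = c) := by rw [bar_inj]; exact eq_comm
  simp only [bk, MM, mul_sub, sub_mul, ss, e1, e2, e3, e4, e5, bar_bar]
  split_ifs <;> abel

/-- the diagonal matrices in `so_2m` -/
def Dg (d : Fin m → K) : Matrix (JD m) (JD m) K :=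
  Matrix.diagonal (Sum.elim d (fun i => -d i))

/-- the weights -/
def dl (d : Fin m → K) : JD m → K := Sum.elim d (fun i => -d i)

theorem dl_bar (d : Fin m → K) (a : JD m) : dl d (bar a) = -dl d a := by
  cases a <;> simp [dl]

theorem bk_Dg (d : Fin m → K) (X : Matrix (JD m) (JD m) K) (a b : JD m) :
    bk (Dg d) X a b = (dl d a - dl d b) * X a b := by
  rw [bk, Matrix.sub_apply, Dg, Matrix.diagonal_mul, Matrix.mul_diagonal]
  simp only [dl]
  ring

theorem bk_Dg_MM (d : Fin m → K) (a b : JD m) :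
    bk (Dg d) (MM a b) = (dl d a - dl d b) • MM a b := by
  ext p q
  rw [bk_Dg, Matrix.smul_apply, smul_eq_mul, MM_apply]
  by_cases h1 : a = p ∧ b = q
  · obtain ⟨rfl, rfl⟩ := h1
    rfl
  · rw [if_neg h1]
    by_cases h2 : bar b = p ∧ bar a = q
    · obtain ⟨rfl, rfl⟩ := h2
      rw [dl_bar, dl_bar]
      ring
    · rw [if_neg h2]
      ring

/-- the signs -/
def sg : JD m → Fin m → ℤ
  | Sum.inl i, k => if i = k then 1 else 0
  | Sum.inr i, k => -(if i = k then 1 else 0)

theorem dl_eq (d : Fin m → K) (a : JD m) : dl d a = ∑ k, (sg a k : K) * d k := by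
  cases a with
  | inl i => simp [dl, sg]
  | inr i => simp [dl, sg]

theorem MM_diag (a : JD m) : (MM a a : Matrix (JD m) (JD m) K) = Dg (fun k => (sg a k : K)) := by
  ext p q
  rw [MM_apply, Dg, Matrix.diagonal_apply]
  by_cases hpq : p = q
  · subst hpq
    rw [if_pos rfl]
    cases a with
    | inl i =>
      cases p with
      | inl j => simp [sg]
      | inr j => simp [sg]
    | inr i =>
      cases p with
      | inl j => simp [sg]
      | inr j => simp [sg]
  · rw [if_neg hpq, if_neg (fun h => hpq (h.1.symm.trans h.2)),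
      if_neg (fun h => hpq (h.1.symm.trans h.2)), sub_zero]

/-- the simple roots: the root `j` is `wt (ea j) - wt (eb j)` -/
def ea (j : Fin m) : JD m :=
  if (j : ℕ) + 1 < m then Sum.inl j else Sum.inl ⟨m - 2, by have := j.2; omega⟩

def eb (j : Fin m) : JD m :=
  if h : (j : ℕ) + 1 < m then Sum.inl ⟨j + 1, h⟩ else Sum.inr ⟨m - 1, by have := j.2; omega⟩

theorem ea_lt {j : Fin m} (h : (j : ℕ) + 1 < m) : ea j = Sum.inl j := by simp [ea, h]
theorem eb_lt {j : Fin m} (h : (j : ℕ) + 1 < m) : eb j = Sum.inl ⟨j + 1, h⟩ := by simp [eb, h]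
theorem ea_last {j : Fin m} (h : ¬ (j : ℕ) + 1 < m) :
    ea j = Sum.inl ⟨m - 2, by have := j.2; omega⟩ := by simp [ea, h]
theorem eb_last {j : Fin m} (h : ¬ (j : ℕ) + 1 < m) :
    eb j = Sum.inr ⟨m - 1, by have := j.2; omega⟩ := by simp [eb, h]

/-- the matrix of the simple roots -/
def bt (j k : Fin m) : ℤ := sg (ea j) k - sg (eb j) k

/-- the simple roots as functions -/
def al (d : Fin m → K) : Fin m → K := fun j => dl d (ea j) - dl d (eb j)

theorem al_eq (d : Fin m → K) (j : Fin m) : al d j = ∑ k, (bt j k : K) * d k := by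
  rw [al, dl_eq, dl_eq, ← Finset.sum_sub_distrib]
  apply Finset.sum_congr rfl
  intro k _
  rw [bt]
  push_cast
  ring

/-- the Cartan matrix -/
def AD (m : ℕ) : Fin m → Fin m → ℤ := fun i j => ∑ k, bt i k * bt j k

/-- the coroots -/
def co (u : Fin m → K) : Fin m → K := fun k => ∑ j, (bt j k : K) * u j

theorem cart_AD (u : Fin m → K) : cart (AD m) u = al (co u) := by
  ext i
  rw [al_eq]
  simp only [cart, AD, co, Finset.mul_sum]
  rw [Finset.sum_comm]
  apply Finset.sum_congr rfl
  intro j _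
  push_cast
  rw [Finset.sum_mul]
  exact Finset.sum_congr rfl fun k _ => by ring

theorem eb_ne_bar {j : Fin m} (hm : 2 ≤ m) : eb j ≠ bar (ea j) := by
  by_cases h : (j : ℕ) + 1 < m
  · rw [ea_lt h, eb_lt h]; simp
  · rw [ea_last h, eb_last h, bar_inl]
    intro h1
    rw [Sum.inr.injEq, Fin.mk.injEq] at h1
    omega

theorem ea_ne_eb {j : Fin m} : ea j ≠ eb j := by
  by_cases h : (j : ℕ) + 1 < m
  · rw [ea_lt h, eb_lt h]
    intro h1
    rw [Sum.inl.injEq] at h1
    have h2 := congrArg Fin.val h1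
    simp at h2
  · rw [ea_last h, eb_last h]; simp

/-- root vectors -/
def EE (j : Fin m) : Matrix (JD m) (JD m) K := MM (ea j) (eb j)
def FF (j : Fin m) : Matrix (JD m) (JD m) K := MM (eb j) (ea j)

theorem bk_EF_same (hm : 2 ≤ m) (j : Fin m) :
    bk (EE j : Matrix (JD m) (JD m) K) (FF j) = Dg (fun k => (bt j k : K)) := by
  rw [EE, FF, bk_MM, if_pos rfl, if_pos rfl, if_neg (eb_ne_bar hm), if_neg (fun h => eb_ne_bar hm h.symm),
    sub_zero, sub_zero, MM_diag, MM_diag]
  ext p q
  rw [Matrix.sub_apply, Dg, Dg, Dg, Matrix.diagonal_apply, Matrix.diagonal_apply,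
    Matrix.diagonal_apply]
  split_ifs with h
  · cases p <;> simp [bt] <;> ring
  · ring

theorem eab_inj {i j : Fin m} (h1 : ea i = ea j) (h2 : eb i = eb j) : i = j := by
  by_cases hi : (i : ℕ) + 1 < m
  · by_cases hj : (j : ℕ) + 1 < m
    · rw [ea_lt hi, ea_lt hj] at h1
      exact Sum.inl.inj h1
    · rw [eb_lt hi, eb_last hj] at h2
      exact absurd h2 (by simp)
  · by_cases hj : (j : ℕ) + 1 < m
    · rw [eb_last hi, eb_lt hj] at h2
      exact absurd h2 (by simp)
    · have := i.2
      have := j.2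
      exact Fin.ext (by omega)

theorem bk_EF_ne {i j : Fin m} (hij : i ≠ j) :
    bk (EE i : Matrix (JD m) (JD m) K) (FF j) = 0 := by
  have hi2 := i.2
  have hj2 := j.2
  rw [EE, FF, bk_MM]
  by_cases hi : (i : ℕ) + 1 < m
  · by_cases hj : (j : ℕ) + 1 < m
    · rw [ea_lt hi, eb_lt hi, ea_lt hj, eb_lt hj]
      rw [if_neg (by
          rw [Sum.inl.injEq, Fin.mk.injEq]
          intro h
          exact hij (Fin.ext (by omega))),
        if_neg (by rw [Sum.inl.injEq]; exact hij), if_neg (by simp), if_neg (by simp)]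
      simp
    · rw [ea_lt hi, eb_lt hi, ea_last hj, eb_last hj]
      rw [if_neg (by simp)]
      by_cases h : (i : ℕ) = m - 2
      · rw [if_pos (by rw [Sum.inl.injEq]; exact Fin.ext h), if_neg (by simp), if_neg (by
          rw [bar_inl, Sum.inr.injEq]
          intro h1
          have h2 := congrArg Fin.val h1
          simp only at h2
          omega)]
        have h2 : (⟨(i : ℕ) + 1, hi⟩ : Fin m) = ⟨m - 1, by omega⟩ := by
          apply Fin.ext
          simp only
          omega
        rw [h2]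
        have h3 := MM_self (K := K) (m := m) (Sum.inr ⟨m - 1, by omega⟩)
        rw [bar_inr] at h3
        rw [h3]
        simp
      · rw [if_neg (by
          rw [Sum.inl.injEq]
          intro h1
          exact h (congrArg Fin.val h1)), if_neg (by simp), if_neg (by
          rw [bar_inl, Sum.inr.injEq]
          intro h1
          have h2 := congrArg Fin.val h1
          simp only at h2
          omega)]
        simp
  · by_cases hj : (j : ℕ) + 1 < m
    · rw [ea_last hi, eb_last hi, ea_lt hj, eb_lt hj]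
      rw [if_neg (by simp)]
      by_cases h : (j : ℕ) = m - 2
      · rw [if_pos (by rw [Sum.inl.injEq]; exact Fin.ext h.symm), if_neg (by
          rw [bar_inl, Sum.inr.injEq]
          intro h1
          have h2 := congrArg Fin.val h1
          simp only at h2
          omega), if_neg (by simp)]
        have h2 : (⟨(j : ℕ) + 1, hj⟩ : Fin m) = ⟨m - 1, by omega⟩ := by
          apply Fin.ext
          simp only
          omega
        rw [h2]
        have h3 := MM_self (K := K) (m := m) (Sum.inl ⟨m - 1, by omega⟩)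
        rw [bar_inl] at h3
        rw [h3]
        simp
      · rw [if_neg (by
          rw [Sum.inl.injEq]
          intro h1
          have h2 := congrArg Fin.val h1
          simp only at h2
          omega), if_neg (by
          rw [bar_inl, Sum.inr.injEq]
          intro h1
          have h2 := congrArg Fin.val h1
          simp only at h2
          omega), if_neg (by simp)]
        simp
    · exact absurd (Fin.ext (by omega)) hij

/-- the element of degree `1` with coefficients `s` -/
def upD (s : Fin m → K) : Matrix (JD m) (JD m) K := ∑ j, s j • EE j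
def dnD (s : Fin m → K) : Matrix (JD m) (JD m) K := ∑ j, s j • FF j

theorem bk_sum {ι : Type} (t : Finset ι) (X : Matrix (JD m) (JD m) K)
    (f : ι → Matrix (JD m) (JD m) K) : bk X (∑ i ∈ t, f i) = ∑ i ∈ t, bk X (f i) := by
  simp only [bk, Finset.mul_sum, Finset.sum_mul, Finset.sum_sub_distrib]

theorem sum_bk {ι : Type} (t : Finset ι) (X : Matrix (JD m) (JD m) K)
    (f : ι → Matrix (JD m) (JD m) K) : bk (∑ i ∈ t, f i) X = ∑ i ∈ t, bk (f i) X := by
  simp only [bk, Finset.mul_sum, Finset.sum_mul, Finset.sum_sub_distrib]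

theorem Dg_add (d e : Fin m → K) : Dg (d + e) = Dg d + Dg e := by
  rw [Dg, Dg, Dg, Matrix.diagonal_add]
  congr 1
  ext p
  cases p <;> simp [add_comm]

theorem Dg_smul (c : K) (d : Fin m → K) : Dg (c • d) = c • Dg d := by
  rw [Dg, Dg, ← Matrix.diagonal_smul]
  congr 1
  ext p
  cases p <;> simp

theorem Dg_zero : Dg (0 : Fin m → K) = 0 := by
  have := Dg_smul (0 : K) (0 : Fin m → K)
  rwa [zero_smul, zero_smul] at this

theorem Dg_sum {ι : Type} (t : Finset ι) (f : ι → Fin m → K) :
    Dg (∑ i ∈ t, f i) = ∑ i ∈ t, Dg (f i) := by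
  classical
  induction t using Finset.induction_on with
  | empty => simp [Dg_zero]
  | insert a t ha ih => rw [Finset.sum_insert ha, Finset.sum_insert ha, Dg_add, ih]

theorem bk_up_dn (hm : 2 ≤ m) (s y : Fin m → K) : bk (upD s) (dnD y) = Dg (co (s * y)) := by
  rw [upD, dnD, sum_bk]
  have h1 : ∀ i ∈ Finset.univ, bk (s i • EE i) (∑ j, y j • FF j) =
      Dg (fun k => (s i * y i) * (bt i k : K)) := by
    intro i _
    rw [bk_sum, Finset.sum_eq_single i]
    · rw [smul_bk, bk_smul, bk_EF_same hm, smul_smul, ← Dg_smul]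
      rfl
    · intro j _ hj
      rw [smul_bk, bk_smul, bk_EF_ne (Ne.symm hj), smul_zero, smul_zero]
    · intro h
      exact absurd (Finset.mem_univ _) h
  rw [Finset.sum_congr rfl h1, ← Dg_sum]
  congr 1
  ext k
  rw [Finset.sum_apply, co]
  exact Finset.sum_congr rfl fun j _ => by rw [Pi.mul_apply]; ring

theorem bk_Dg_up (d s : Fin m → K) : bk (Dg d) (upD s) = upD (al d * s) := by
  rw [upD, upD, bk_sum]
  apply Finset.sum_congr rfl
  intro j _
  rw [bk_smul, EE, bk_Dg_MM, smul_smul, Pi.mul_apply, al]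
  ring_nf

theorem bk_Dg_dn (d s : Fin m → K) : bk (Dg d) (dnD s) = -dnD (al d * s) := by
  rw [dnD, dnD, bk_sum, ← Finset.sum_neg_distrib]
  apply Finset.sum_congr rfl
  intro j _
  rw [bk_smul, FF, bk_Dg_MM, smul_smul, Pi.mul_apply, al, ← neg_smul]
  ring_nf

theorem upD_add (s t : Fin m → K) : upD (s + t) = upD s + upD t := by
  simp only [upD, Pi.add_apply, add_smul, Finset.sum_add_distrib]

theorem dnD_add (s t : Fin m → K) : dnD (s + t) = dnD s + dnD t := by
  simp only [dnD, Pi.add_apply, add_smul, Finset.sum_add_distrib]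

theorem upD_smul (c : K) (s : Fin m → K) : upD (c • s) = c • upD s := by
  simp only [upD, Pi.smul_apply, smul_eq_mul, Finset.smul_sum, smul_smul]

theorem dnD_smul (c : K) (s : Fin m → K) : dnD (c • s) = c • dnD s := by
  simp only [dnD, Pi.smul_apply, smul_eq_mul, Finset.smul_sum, smul_smul]

theorem deg_eab (j : Fin m) (hm : 2 ≤ m) : degD m (ea j) - degD m (eb j) = 1 := by
  have hj := j.2
  by_cases h : (j : ℕ) + 1 < m
  · rw [ea_lt h, eb_lt h]
    simp
  · rw [ea_last h, eb_last h]
    simp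
    omega

theorem hom_MM (a b : JD m) : Hom (degD m) (degD m a - degD m b)
    (MM a b : Matrix (JD m) (JD m) K) := by
  intro p q h
  rw [MM_apply, if_neg, if_neg, sub_zero]
  · rintro ⟨rfl, rfl⟩
    apply h
    rw [degD_bar, degD_bar]
    ring
  · rintro ⟨rfl, rfl⟩
    exact h rfl

theorem hom_sum {ι : Type} {deg : JD m → ℤ} {k : ℤ} (t : Finset ι)
    (f : ι → Matrix (JD m) (JD m) K) (h : ∀ i ∈ t, Hom deg k (f i)) : Hom deg k (∑ i ∈ t, f i) := by
  intro p q hpq
  rw [Matrix.sum_apply]
  exact Finset.sum_eq_zero fun i hi => h i hi p q hpq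

theorem hom_upD (hm : 2 ≤ m) (s : Fin m → K) : Hom (degD m) 1 (upD s) := by
  apply hom_sum
  intro j _
  apply hom_smul
  have h := hom_MM (K := K) (ea j) (eb j)
  rwa [deg_eab j hm] at h

theorem hom_dnD (hm : 2 ≤ m) (s : Fin m → K) : Hom (degD m) (-1) (dnD s) := by
  apply hom_sum
  intro j _
  apply hom_smul
  have h := hom_MM (K := K) (eb j) (ea j)
  have h2 := deg_eab j hm
  have h3 : degD m (eb j) - degD m (ea j) = -1 := by omega
  rwa [h3] at h

/-- the cross terms vanish -/
theorem no_cross {i j : Fin m} (hm : 2 ≤ m) (h1 : bar (eb i) = ea j) (h2 : bar (ea i) = eb j) :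
    False := by
  have hi2 := i.2
  have hj2 := j.2
  by_cases hi : (i : ℕ) + 1 < m
  · rw [eb_lt hi, bar_inl] at h1
    by_cases hj : (j : ℕ) + 1 < m
    · rw [ea_lt hj] at h1
      exact absurd h1 (by simp)
    · rw [ea_last hj] at h1
      exact absurd h1 (by simp)
  · rw [ea_last hi, bar_inl] at h2
    by_cases hj : (j : ℕ) + 1 < m
    · rw [eb_lt hj] at h2
      exact absurd h2 (by simp)
    · rw [eb_last hj, Sum.inr.injEq, Fin.mk.injEq] at h2
      omega

theorem upD_eab (hm : 2 ≤ m) (s : Fin m → K) (j : Fin m) : upD s (ea j) (eb j) = s j := by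
  rw [upD, Matrix.sum_apply, Finset.sum_eq_single j]
  · rw [Matrix.smul_apply, EE, MM_apply, if_pos ⟨rfl, rfl⟩,
      if_neg (fun h => no_cross hm h.1 h.2), sub_zero, smul_eq_mul, mul_one]
  · intro i _ hij
    rw [Matrix.smul_apply, EE, MM_apply, if_neg (fun h => hij (eab_inj h.1 h.2)),
      if_neg (fun h => no_cross hm h.1 h.2), sub_zero, smul_zero]
  · intro h
    exact absurd (Finset.mem_univ _) h

theorem dnD_eab (hm : 2 ≤ m) (s : Fin m → K) (j : Fin m) : dnD s (eb j) (ea j) = s j := by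
  rw [dnD, Matrix.sum_apply, Finset.sum_eq_single j]
  · rw [Matrix.smul_apply, FF, MM_apply, if_pos ⟨rfl, rfl⟩,
      if_neg (fun h => no_cross hm h.2 h.1), sub_zero, smul_eq_mul, mul_one]
  · intro i _ hij
    rw [Matrix.smul_apply, FF, MM_apply, if_neg (fun h => hij (eab_inj h.2 h.1)),
      if_neg (fun h => no_cross hm h.2 h.1), sub_zero, smul_zero]
  · intro h
    exact absurd (Finset.mem_univ _) h

theorem sk_sum {ι : Type} (t : Finset ι) (f : ι → Matrix (JD m) (JD m) K)
    (h : ∀ i ∈ t, Sk (f i)) : Sk (∑ i ∈ t, f i) := by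
  intro p q
  rw [Matrix.sum_apply, Matrix.sum_apply, ← Finset.sum_neg_distrib]
  exact Finset.sum_congr rfl fun i hi => h i hi p q

theorem sk_smul (c : K) {X : Matrix (JD m) (JD m) K} (h : Sk X) : Sk (c • X) := by
  intro p q
  rw [Matrix.smul_apply, Matrix.smul_apply, h p q, smul_neg]

theorem sk_upD (s : Fin m → K) : Sk (upD s) :=
  sk_sum _ _ fun _ _ => sk_smul _ (sk_MM _ _)

theorem sk_dnD (s : Fin m → K) : Sk (dnD s) :=
  sk_sum _ _ fun _ _ => sk_smul _ (sk_MM _ _)

/-- index pairs of degree one -/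
theorem pairs_one (hm : 2 ≤ m) {p q : JD m} (h : degD m p - degD m q = 1) :
    ∃ j : Fin m, (p = ea j ∧ q = eb j) ∨ (p = bar (eb j) ∧ q = bar (ea j)) := by
  cases p with
  | inl i =>
    have hi := i.2
    cases q with
    | inl k =>
      have hk := k.2
      simp only [degD_inl] at h
      refine ⟨i, Or.inl ?_⟩
      have h1 : (i : ℕ) + 1 < m := by omega
      rw [ea_lt h1, eb_lt h1]
      refine ⟨rfl, ?_⟩
      congr 1
      apply Fin.ext
      simp only
      omega
    | inr k =>
      have hk := k.2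
      simp only [degD_inl, degD_inr] at h
      refine ⟨⟨m - 1, by omega⟩, ?_⟩
      have h1 : ¬ ((⟨m - 1, by omega⟩ : Fin m) : ℕ) + 1 < m := by simp only; omega
      rw [ea_last h1, eb_last h1]
      have h2 : ((i : ℕ) = m - 2 ∧ (k : ℕ) = m - 1) ∨ ((i : ℕ) = m - 1 ∧ (k : ℕ) = m - 2) := by
        omega
      rcases h2 with ⟨h2, h3⟩ | ⟨h2, h3⟩
      · left
        constructor
        · congr 1; exact Fin.ext h2
        · congr 1; exact Fin.ext h3
      · right
        rw [bar_inl, bar_inr]
        constructor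
        · congr 1; exact Fin.ext h2
        · congr 1; exact Fin.ext h3
  | inr i =>
    have hi := i.2
    cases q with
    | inl k =>
      have hk := k.2
      simp only [degD_inl, degD_inr] at h
      omega
    | inr k =>
      have hk := k.2
      simp only [degD_inr] at h
      refine ⟨k, Or.inr ?_⟩
      have h1 : (k : ℕ) + 1 < m := by omega
      rw [ea_lt h1, eb_lt h1, bar_inl, bar_inl]
      refine ⟨?_, rfl⟩
      congr 1
      apply Fin.ext
      simp only
      omega

theorem eq_upD (hm : 2 ≤ m) {X : Matrix (JD m) (JD m) K} (h1 : Hom (degD m) 1 X) (h2 : Sk X) :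
    X = upD (fun j => X (ea j) (eb j)) := by
  ext p q
  by_cases h : degD m p - degD m q = 1
  · obtain ⟨j, ⟨rfl, rfl⟩ | ⟨rfl, rfl⟩⟩ := pairs_one hm h
    · rw [upD_eab hm]
    · rw [h2, sk_upD, bar_bar, bar_bar, upD_eab hm]
  · rw [h1 p q h, hom_upD hm _ p q h]

theorem eq_dnD (hm : 2 ≤ m) {X : Matrix (JD m) (JD m) K} (h1 : Hom (degD m) (-1) X) (h2 : Sk X) :
    X = dnD (fun j => X (eb j) (ea j)) := by
  ext p q
  by_cases h : degD m q - degD m p = 1
  · obtain ⟨j, ⟨rfl, rfl⟩ | ⟨rfl, rfl⟩⟩ := pairs_one hm h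
    · rw [dnD_eab hm]
    · rw [h2, sk_dnD, bar_bar, bar_bar, dnD_eab hm]
  · rw [h1 p q (by omega), hom_dnD hm _ p q (by omega)]

theorem trace_MM_mul (a b : JD m) {Y : Matrix (JD m) (JD m) K} (hY : Sk Y) :
    (MM a b * Y).trace = 2 * Y b a := by
  rw [MM, sub_mul, Matrix.trace_sub, Matrix.trace_single_mul, Matrix.trace_single_mul, hY b a]
  ring

theorem trace_upD_mul (s : Fin m → K) {Y : Matrix (JD m) (JD m) K} (hY : Sk Y) :
    (upD s * Y).trace = 2 * ∑ j, s j * Y (eb j) (ea j) := by
  rw [upD, Finset.sum_mul, Matrix.trace_sum, Finset.mul_sum]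
  apply Finset.sum_congr rfl
  intro j _
  rw [smul_mul_assoc, Matrix.trace_smul, EE, trace_MM_mul _ _ hY, smul_eq_mul]
  ring

theorem dg_degD : (dg (degD m) : Matrix (JD m) (JD m) K) =
    Dg (fun i => (m : K) - 1 - ((i : ℕ) : K)) := by
  rw [dg, Dg]
  congr 1
  ext p
  cases p with
  | inl i => simp
  | inr i => simp; ring

theorem al_deg (hm : 2 ≤ m) : al (fun i : Fin m => (m : K) - 1 - ((i : ℕ) : K)) = 1 := by
  ext j
  rw [al, Pi.one_apply]
  have hj := j.2
  by_cases h : (j : ℕ) + 1 < m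
  · rw [ea_lt h, eb_lt h]
    simp [dl]
  · rw [ea_last h, eb_last h]
    simp only [dl, Sum.elim_inl, Sum.elim_inr]
    rw [Nat.cast_sub (by omega), Nat.cast_sub (by omega)]
    push_cast
    ring

end MTC
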