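import Pool.Agent.Helper56.MTC.Dm

/-!
# The Lie algebra `so_2m`: entries of the matrices of degree `±1`
-/

set_option autoImplicit false
set_option linter.unusedSectionVars false

namespace MTC

variable {K : Type} [Field K] {m : ℕ}

theorem up_ll (hm : 2 ≤ m) (s : Fin m → K) (i k : Fin m) :
    upD s (Sum.inl i) (Sum.inl k) = if (k : ℕ) = i + 1 then s i else 0 := by
  have hi := i.2
  have hk := k.2
  split_ifs with h
  · have h1 : (i : ℕ) + 1 < m := by omega
    have h2 := upD_eab hm s i
    rw [ea_lt h1, eb_lt h1] at h2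
    rw [← h2]
    congr 2
    exact Fin.ext h
  · apply hom_upD hm
    simp only [degD_inl]
    omega

theorem up_rr (hm : 2 ≤ m) (s : Fin m → K) (i k : Fin m) :
    upD s (Sum.inr i) (Sum.inr k) = if (i : ℕ) = k + 1 then -s k else 0 := by
  rw [sk_upD, bar_inr, bar_inr, up_ll hm]
  split_ifs <;> simp

theorem up_rl (hm : 2 ≤ m) (s : Fin m → K) (i k : Fin m) :
    upD s (Sum.inr i) (Sum.inl k) = 0 := by
  have hi := i.2
  have hk := k.2
  apply hom_upD hm
  simp only [degD_inl, degD_inr]
  omega

theorem up_lr (hm : 2 ≤ m) (s : Fin m → K) (i k : Fin m) :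
    upD s (Sum.inl i) (Sum.inr k) = if (i : ℕ) + 2 = m ∧ (k : ℕ) + 1 = m then s ⟨m - 1, by omega⟩
      else if (i : ℕ) + 1 = m ∧ (k : ℕ) + 2 = m then -s ⟨m - 1, by omega⟩ else 0 := by
  have hi := i.2
  have hk := k.2
  have h0 : ¬ ((⟨m - 1, by omega⟩ : Fin m) : ℕ) + 1 < m := by simp only; omega
  have h2 := upD_eab hm s ⟨m - 1, by omega⟩
  rw [ea_last h0, eb_last h0] at h2
  split_ifs with h h'
  · rw [← h2]
    congr 2
    · exact Fin.ext (by simp only; omega)
    · exact Fin.ext (by simp only; omega)
  · rw [← h2, sk_upD, bar_inl, bar_inr]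
    congr 3
    · exact Fin.ext (by simp only; omega)
    · exact Fin.ext (by simp only; omega)
  · apply hom_upD hm
    simp only [degD_inl, degD_inr]
    omega

theorem dn_eq (s : Fin m → K) : dnD s = (upD s).transpose := by
  rw [dnD, upD, Matrix.transpose_sum]
  apply Finset.sum_congr rfl
  intro j _
  rw [Matrix.transpose_smul, EE, FF, MM, MM, Matrix.transpose_sub, Matrix.transpose_single,
    Matrix.transpose_single]

/-- the vector killed by the regular nilpotent element -/
def ell (K : Type) [Field K] {m : ℕ} (hm : 2 ≤ m) : JD m → K :=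
  Pi.single (Sum.inl ⟨m - 1, by omega⟩) 1 - Pi.single (Sum.inr ⟨m - 1, by omega⟩) 1

theorem up_ell (hm : 2 ≤ m) (s : Fin m → K) : (upD s).mulVec (ell K hm) =
    (s ⟨m - 2, by omega⟩ - s ⟨m - 1, by omega⟩) • Pi.single (Sum.inl ⟨m - 2, by omega⟩) 1 := by
  rw [ell, Matrix.mulVec_sub, Matrix.mulVec_single_one, Matrix.mulVec_single_one]
  ext p
  simp only [Pi.sub_apply, Matrix.col_apply, Pi.smul_apply, smul_eq_mul]
  cases p with
  | inl i =>
    have hi := i.2
    rw [up_ll hm, up_lr hm]
    by_cases h : (i : ℕ) + 2 = m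
    · have h1 : i = ⟨m - 2, by omega⟩ := Fin.ext (by simp only; omega)
      rw [h1]
      rw [if_pos (by simp only; omega), if_pos ⟨by simp only; omega, by simp only; omega⟩,
        Pi.single_eq_same, mul_one]
    · rw [if_neg (by simp only; omega), if_neg (by simp only; omega), if_neg (by simp only; omega),
        Pi.single_eq_of_ne, mul_zero, sub_zero]
      rw [ne_eq, Sum.inl.injEq]
      intro h1
      have h2 := congrArg Fin.val h1
      simp only at h2
      omega
  | inr i =>
    have hi := i.2
    rw [up_rl hm, up_rr hm, if_neg (by simp only; omega), sub_zero, Pi.single_eq_of_ne (by simp),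
      mul_zero]

theorem dn_ell (hm : 2 ≤ m) (s : Fin m → K) : (dnD s).mulVec (ell K hm) =
    (s ⟨m - 2, by omega⟩ - s ⟨m - 1, by omega⟩) • Pi.single (Sum.inr ⟨m - 2, by omega⟩) 1 := by
  rw [ell, Matrix.mulVec_sub, Matrix.mulVec_single_one, Matrix.mulVec_single_one]
  ext p
  simp only [Pi.sub_apply, Matrix.col_apply, Pi.smul_apply, smul_eq_mul, dn_eq,
    Matrix.transpose_apply]
  cases p with
  | inl i =>
    have hi := i.2
    rw [up_ll hm, up_rl hm, if_neg (by simp only; omega), sub_zero,
      Pi.single_eq_of_ne (by simp), mul_zero]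
  | inr i =>
    have hi := i.2
    rw [up_lr hm, up_rr hm]
    by_cases h : (i : ℕ) + 2 = m
    · have h1 : i = ⟨m - 2, by omega⟩ := Fin.ext (by simp only; omega)
      rw [h1]
      rw [if_neg (by simp only; omega), if_pos ⟨by simp only; omega, by simp only; omega⟩,
        if_pos (by simp only; omega), Pi.single_eq_same, mul_one]
      ring
    · rw [if_neg (by simp only; omega), if_neg (by simp only; omega), if_neg (by simp only; omega),
        Pi.single_eq_of_ne, mul_zero, sub_zero]
      rw [ne_eq, Sum.inr.injEq]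
      intro h1
      have h2 := congrArg Fin.val h1
      simp only at h2
      omega

/-- rows -/
theorem up_row (hm : 2 ≤ m) (s : Fin m → K) (y : JD m → K) (t : ℕ) (ht : t + 1 < m) :
    (upD s).mulVec y (Sum.inr ⟨t + 1, ht⟩) = -s ⟨t, by omega⟩ * y (Sum.inr ⟨t, by omega⟩) := by
  rw [Matrix.mulVec, dotProduct, Fintype.sum_sum_type]
  rw [Finset.sum_eq_zero (fun k _ => by rw [up_rl hm, zero_mul]), zero_add,
    Finset.sum_eq_single (⟨t, by omega⟩ : Fin m)]
  · rw [up_rr hm, if_pos rfl]
  · intro k _ hk
    rw [up_rr hm, if_neg, zero_mul]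
    intro h
    apply hk
    apply Fin.ext
    simp only at h ⊢
    omega
  · intro h
    exact absurd (Finset.mem_univ _) h

theorem dn_row (hm : 2 ≤ m) (s : Fin m → K) (y : JD m → K) (t : ℕ) (ht : t + 1 < m) :
    (dnD s).mulVec y (Sum.inl ⟨t + 1, ht⟩) = s ⟨t, by omega⟩ * y (Sum.inl ⟨t, by omega⟩) := by
  rw [Matrix.mulVec, dotProduct, Fintype.sum_sum_type, dn_eq]
  simp only [Matrix.transpose_apply]
  rw [Finset.sum_eq_single (⟨t, by omega⟩ : Fin m), up_ll hm, if_pos rfl]
  · rw [Finset.sum_eq_zero, add_zero]
    intro k _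
    rw [up_rl hm, zero_mul]
  · intro k _ hk
    rw [up_ll hm, if_neg, zero_mul]
    intro h
    apply hk
    apply Fin.ext
    simp only at h ⊢
    omega
  · intro h
    exact absurd (Finset.mem_univ _) h

/-- the action of the regular nilpotent element on the basis -/
theorem N_inl (hm : 2 ≤ m) (t : ℕ) (ht : t + 1 < m) :
    (upD (1 : Fin m → K)).mulVec (Pi.single (Sum.inl ⟨t + 1, ht⟩) 1) =
      Pi.single (Sum.inl ⟨t, by omega⟩) 1 := by
  rw [Matrix.mulVec_single_one]
  ext p
  rw [Matrix.col_apply]
  cases p with
  | inl i =>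
    rw [up_ll hm]
    by_cases h : i = ⟨t, by omega⟩
    · subst h
      simp
    · rw [if_neg, Pi.single_eq_of_ne]
      · rw [ne_eq, Sum.inl.injEq]; exact h
      · intro h1
        apply h
        apply Fin.ext
        simp only at h1 ⊢
        omega
  | inr i => rw [up_rl hm, Pi.single_eq_of_ne (by simp)]

theorem N_inr (hm : 2 ≤ m) (t : ℕ) (ht : t + 2 < m) :
    (upD (1 : Fin m → K)).mulVec (Pi.single (Sum.inr ⟨t, by omega⟩) 1) =
      -Pi.single (Sum.inr ⟨t + 1, by omega⟩) 1 := by
  rw [Matrix.mulVec_single_one]
  ext p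
  rw [Matrix.col_apply, Pi.neg_apply]
  cases p with
  | inl i =>
    rw [up_lr hm, if_neg (by simp only; omega), if_neg (by simp only; omega),
      Pi.single_eq_of_ne (by simp), neg_zero]
  | inr i =>
    rw [up_rr hm]
    by_cases h : i = ⟨t + 1, by omega⟩
    · subst h
      simp
    · rw [if_neg, Pi.single_eq_of_ne, neg_zero]
      · rw [ne_eq, Sum.inr.injEq]; exact h
      · intro h1
        apply h
        apply Fin.ext
        simp only at h1 ⊢
        omega

theorem N_inr_last (hm : 2 ≤ m) :
    (upD (1 : Fin m → K)).mulVec (Pi.single (Sum.inr ⟨m - 2, by omega⟩) 1) =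
      -(Pi.single (Sum.inr ⟨m - 1, by omega⟩) 1 + Pi.single (Sum.inl ⟨m - 1, by omega⟩) 1) := by
  rw [Matrix.mulVec_single_one]
  ext p
  rw [Matrix.col_apply, Pi.neg_apply, Pi.add_apply]
  cases p with
  | inl i =>
    have hi := i.2
    rw [up_lr hm, if_neg (by simp only; omega)]
    by_cases h : i = ⟨m - 1, by omega⟩
    · rw [h]
      rw [if_pos ⟨by simp only; omega, by simp only; omega⟩]
      simp
    · rw [if_neg, Pi.single_eq_of_ne (by simp), Pi.single_eq_of_ne, add_zero, neg_zero]
      · rw [ne_eq, Sum.inl.injEq]; exact h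
      · intro h1
        apply h
        apply Fin.ext
        simp only at h1 ⊢
        omega
  | inr i =>
    have hi := i.2
    rw [up_rr hm]
    by_cases h : i = ⟨m - 1, by omega⟩
    · rw [h]
      rw [if_pos (by simp only; omega)]
      simp
    · rw [if_neg, Pi.single_eq_of_ne, Pi.single_eq_of_ne (by simp), add_zero, neg_zero]
      · rw [ne_eq, Sum.inr.injEq]; exact h
      · intro h1
        apply h
        apply Fin.ext
        simp only at h1 ⊢
        omega

/-- a matrix of negative degree which commutes with the regular nilpotent element is zero -/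
theorem injD [CharZero K] (hm : 2 ≤ m) (k : ℤ) (hk : k < 0) (X : Matrix (JD m) (JD m) K)
    (hX : Hom (degD m) k X) (h : bk (upD (1 : Fin m → K)) X = 0) : X = 0 := by
  set N : Matrix (JD m) (JD m) K := upD (1 : Fin m → K) with hN
  have hc : ∀ v : JD m → K, X.mulVec (N.mulVec v) = N.mulVec (X.mulVec v) := by
    intro v
    rw [Matrix.mulVec_mulVec, Matrix.mulVec_mulVec]
    rw [bk, sub_eq_zero] at h
    rw [h]
  -- columns
  have h0 : X.mulVec (Pi.single (Sum.inr ⟨0, by omega⟩) 1) = 0 := by
    rw [Matrix.mulVec_single_one]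
    ext p
    rw [Matrix.col_apply, Pi.zero_apply]
    apply hX
    cases p with
    | inl i =>
      have hi := i.2
      simp only [degD_inl, degD_inr]
      push_cast
      omega
    | inr i =>
      simp only [degD_inr]
      push_cast
      omega
  have h1 : ∀ t : ℕ, ∀ ht : t + 1 < m,
      X.mulVec (Pi.single (Sum.inr ⟨t, by omega⟩) 1) = 0 := by
    intro t
    induction t with
    | zero => intro _; exact h0
    | succ t ih =>
      intro ht
      have h2 := N_inr (K := K) hm t (by omega)
      have h3 := hc (Pi.single (Sum.inr ⟨t, by omega⟩) 1)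
      rw [hN, h2, ← hN, ih (by omega), Matrix.mulVec_zero, Matrix.mulVec_neg, neg_eq_zero] at h3
      exact h3
  have h2 : X.mulVec (Pi.single (Sum.inr ⟨m - 1, by omega⟩) 1) +
      X.mulVec (Pi.single (Sum.inl ⟨m - 1, by omega⟩) 1) = 0 := by
    have h3 := hc (Pi.single (Sum.inr ⟨m - 2, by omega⟩) 1)
    rw [hN, N_inr_last hm, ← hN, h1 (m - 2) (by omega), Matrix.mulVec_zero, Matrix.mulVec_neg,
      neg_eq_zero, Matrix.mulVec_add] at h3
    exact h3
  have h4 : X.mulVec (ell K hm) = 0 := by
    have h5 := hc (ell K hm)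
    rw [hN, up_ell hm, Pi.one_apply, Pi.one_apply, sub_self, zero_smul, Matrix.mulVec_zero,
      ← hN] at h5
    have hz : ∀ p : JD m, degD m p ≠ k → X.mulVec (ell K hm) p = 0 := by
      intro p hp
      rw [ell, Matrix.mulVec_sub, Matrix.mulVec_single_one, Matrix.mulVec_single_one,
        Pi.sub_apply, Matrix.col_apply, Matrix.col_apply, hX, hX, sub_zero]
      · simp only [degD_inr]
        intro h6
        apply hp
        rw [← h6]
        push_cast [Nat.cast_sub (show 1 ≤ m by omega)]
        ring
      · simp only [degD_inl]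
        intro h6
        apply hp
        rw [← h6]
        push_cast [Nat.cast_sub (show 1 ≤ m by omega)]
        ring
    ext p
    rw [Pi.zero_apply]
    cases p with
    | inl i =>
      have hi := i.2
      apply hz
      simp only [degD_inl]
      omega
    | inr i =>
      have hi := i.2
      by_cases h6 : (i : ℕ) + 1 < m
      · have h7 := congrFun h5 (Sum.inr ⟨i + 1, h6⟩)
        rw [hN, up_row hm] at h7
        simp only [Pi.one_apply, Pi.zero_apply] at h7
        rw [neg_mul, one_mul, eq_comm, neg_eq_zero] at h7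
        exact h7
      · apply hz
        simp only [degD_inr]
        omega
  have h5 : X.mulVec (Pi.single (Sum.inl ⟨m - 1, by omega⟩) 1) = 0 := by
    rw [ell, Matrix.mulVec_sub, sub_eq_zero] at h4
    rw [← h4, ← two_smul K, smul_eq_zero] at h2
    rcases h2 with h | h
    · exact absurd h two_ne_zero
    · exact h
  have h6 : X.mulVec (Pi.single (Sum.inr ⟨m - 1, by omega⟩) 1) = 0 := by
    rw [h5, add_zero] at h2
    exact h2
  have h7 : ∀ d t : ℕ, ∀ ht : t < m, t + d + 1 = m →
      X.mulVec (Pi.single (Sum.inl ⟨t, ht⟩) 1) = 0 := by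
    intro d
    induction d with
    | zero =>
      intro t ht htd
      have h8 : t = m - 1 := by omega
      subst h8
      exact h5
    | succ d ih =>
      intro t ht htd
      have h8 := N_inl (K := K) hm t (by omega)
      have h9 := hc (Pi.single (Sum.inl ⟨t + 1, by omega⟩) 1)
      rw [hN, h8, ← hN, ih (t + 1) (by omega) (by omega), Matrix.mulVec_zero] at h9
      exact h9
  have h8 : ∀ q : JD m, X.mulVec (Pi.single q 1) = 0 := by
    intro q
    cases q with
    | inl i => exact h7 (m - 1 - i) i i.2 (by have := i.2; omega)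
    | inr i =>
      by_cases h9 : (i : ℕ) + 1 < m
      · exact h1 i h9
      · have h10 : i = ⟨m - 1, by omega⟩ := Fin.ext (by simp only; have := i.2; omega)
        rw [h10]
        exact h6
  ext p q
  have h9 := congrFun (h8 q) p
  rw [Matrix.mulVec_single_one, Matrix.col_apply] at h9
  exact h9

/-- the coroot sums -/
theorem co_eq (hm : 2 ≤ m) (u : ℕ → K) (k : Fin m) :
    co (fun j : Fin m => u j) k = (if (k : ℕ) + 1 < m then u k else 0) -
      (if (k : ℕ) = 0 then 0 else u (k - 1)) + (if m ≤ (k : ℕ) + 2 then u (m - 1) else 0) := by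
  have hk := k.2
  rw [co]
  have h1 : ∀ j : Fin m, (bt j k : K) * u j =
      (if (j : ℕ) = k then (if (k : ℕ) + 1 < m then u j else 0) else 0) -
      (if (j : ℕ) + 1 = k then u j else 0) +
      (if (j : ℕ) + 1 = m then (if m ≤ (k : ℕ) + 2 then u j else 0) else 0) := by
    intro j
    have hj := j.2
    by_cases h : (j : ℕ) + 1 < m
    · rw [bt, ea_lt h, eb_lt h, if_neg (show ¬ (j : ℕ) + 1 = m by omega), add_zero]
      simp only [sg]
      by_cases h2 : (j : ℕ) = k
      · have h3 : j = k := Fin.ext h2
        subst h3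
        rw [if_pos rfl, if_neg, if_pos rfl, if_pos h, if_neg (by omega)]
        · simp
        · intro h4
          have h5 := congrArg Fin.val h4
          simp only at h5
          omega
      · have h3 : j ≠ k := fun h => h2 (congrArg Fin.val h)
        rw [if_neg h3, if_neg h2]
        by_cases h4 : (j : ℕ) + 1 = k
        · rw [if_pos (Fin.ext h4), if_pos h4]
          simp
        · rw [if_neg (fun h => h4 (congrArg Fin.val h)), if_neg h4]
          simp
    · have h2 : (j : ℕ) + 1 = m := by omega
      rw [bt, ea_last h, eb_last h, if_pos h2, if_neg (show ¬ (j : ℕ) + 1 = k by omega), sub_zero]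
      simp only [sg]
      by_cases h3 : (k : ℕ) + 2 = m
      · rw [if_pos (Fin.ext (by simp only; omega)), if_neg (by
          intro h4
          have h5 := congrArg Fin.val h4
          simp only at h5
          omega), if_neg (by omega), if_pos (by omega)]
        simp
      · by_cases h4 : (k : ℕ) + 1 = m
        · rw [if_neg (by
            intro h4
            have h5 := congrArg Fin.val h4
            simp only at h5
            omega), if_pos (Fin.ext (by simp only; omega)), if_pos (by omega), if_neg (by omega),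
            if_pos (by omega)]
          simp
        · rw [if_neg (by
            intro h4
            have h5 := congrArg Fin.val h4
            simp only at h5
            omega), if_neg (by
            intro h4
            have h5 := congrArg Fin.val h4
            simp only at h5
            omega), if_neg (by omega), if_neg (by omega)]
          simp
  rw [Finset.sum_congr rfl fun j _ => h1 j, Finset.sum_add_distrib, Finset.sum_sub_distrib]
  rw [Fin.sum_univ_eq_sum_range (fun j : ℕ => if j = (k : ℕ) then
      (if (k : ℕ) + 1 < m then u j else 0) else 0) m,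
    Fin.sum_univ_eq_sum_range (fun j : ℕ => if j + 1 = (k : ℕ) then u j else 0) m,
    Fin.sum_univ_eq_sum_range (fun j : ℕ => if j + 1 = m then
      (if m ≤ (k : ℕ) + 2 then u j else 0) else 0) m]
  congr 1
  · congr 1
    · rw [Finset.sum_eq_single (k : ℕ)]
      · rw [if_pos rfl]
      · intro j _ hj
        rw [if_neg hj]
      · intro h
        exact absurd (Finset.mem_range.mpr hk) h
    · split_ifs with h
      · apply Finset.sum_eq_zero
        intro j _
        rw [if_neg (by omega)]
      · rw [Finset.sum_eq_single ((k : ℕ) - 1)]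
        · rw [if_pos (by omega)]
        · intro j _ hj
          rw [if_neg (by omega)]
        · intro h'
          exact absurd (Finset.mem_range.mpr (by omega)) h'
  · rw [Finset.sum_eq_single (m - 1)]
    · rw [if_pos (by omega)]
    · intro j _ hj
      rw [if_neg (by omega)]
    · intro h'
      exact absurd (Finset.mem_range.mpr (by omega)) h'

/-- the Cartan matrix acts as `cartD` -/
theorem cart_cartD (hm : 2 ≤ m) (u : ℕ → ℤ) (i : Fin m) :
    cart (AD m) (fun j : Fin m => ((u j : ℤ) : K)) i = ((cartD m u i : ℤ) : K) := by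
  have hi := i.2
  rw [cart_AD, al]
  have hco := co_eq (K := K) hm (fun j => ((u j : ℤ) : K))
  by_cases h : (i : ℕ) + 1 < m
  · rw [ea_lt h, eb_lt h]
    simp only [dl, Sum.elim_inl]
    rw [hco, hco]
    simp only
    unfold cartD
    rw [if_pos h, if_neg (show ¬ ((i : ℕ) + 1 = 0) by omega), Nat.add_sub_cancel]
    by_cases h3 : (i : ℕ) + 3 < m
    · rw [if_pos h3, if_neg (show ¬ m ≤ (i : ℕ) + 2 by omega),
        if_pos (show (i : ℕ) + 1 + 1 < m by omega), if_neg (show ¬ m ≤ (i : ℕ) + 1 + 2 by omega)]
      split_ifs <;> push_cast <;> ring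
    · rw [if_neg h3]
      by_cases h4 : (i : ℕ) + 3 = m
      · rw [if_pos h4, if_neg (show ¬ m ≤ (i : ℕ) + 2 by omega),
          if_pos (show (i : ℕ) + 1 + 1 < m by omega), if_pos (show m ≤ (i : ℕ) + 1 + 2 by omega)]
        have e1 : m - 2 = (i : ℕ) + 1 := by omega
        rw [e1]
        split_ifs <;> push_cast <;> ring
      · rw [if_neg h4, if_pos (show m ≤ (i : ℕ) + 2 by omega),
          if_neg (show ¬ (i : ℕ) + 1 + 1 < m by omega), if_pos (show m ≤ (i : ℕ) + 1 + 2 by omega)]
        by_cases h5 : 3 ≤ m
        · have e1 : m - 3 = (i : ℕ) - 1 := by omega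
          rw [if_neg (show ¬ (i : ℕ) = 0 by omega), if_pos h5, e1]
          push_cast
          ring
        · rw [if_pos (show (i : ℕ) = 0 by omega), if_neg h5]
          push_cast
          ring
  · rw [ea_last h, eb_last h]
    simp only [dl, Sum.elim_inl, Sum.elim_inr]
    rw [hco, hco]
    simp only
    unfold cartD
    rw [if_neg (show ¬ (i : ℕ) + 3 < m by omega), if_neg (show ¬ (i : ℕ) + 3 = m by omega),
      if_pos (show m - 2 + 1 < m by omega), if_pos (show m ≤ m - 2 + 2 by omega),
      if_neg (show ¬ m - 1 + 1 < m by omega), if_neg (show ¬ m - 1 = 0 by omega),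
      if_pos (show m ≤ m - 1 + 2 by omega)]
    have e1 : m - 1 - 1 = m - 2 := by omega
    have e2 : m - 2 - 1 = m - 3 := by omega
    have e3 : (i : ℕ) = m - 1 := by omega
    rw [e1, e2, e3]
    by_cases h5 : 3 ≤ m
    · rw [if_neg (show ¬ m - 2 = 0 by omega), if_pos h5]
      push_cast
      ring
    · rw [if_pos (show m - 2 = 0 by omega), if_neg h5]
      push_cast
      ring

theorem cartD_wD (hm : 2 ≤ m) (i : ℕ) (hi : i < m) : cartD m (wD m) i = 4 := by
  have hmZ : (2 : ℤ) ≤ m := by exact_mod_cast hm
  unfold cartD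
  have lf2 : wD m (m - 2) = (m : ℤ) * (m - 1) := wD_leaf (by omega)
  have lf1 : wD m (m - 1) = (m : ℤ) * (m - 1) := wD_leaf (by omega)
  have hin : ∀ t : ℕ, t + 2 < m → wD m t = 2 * ((t : ℤ) + 1) * (2 * m - 2 - t) := by
    intro t ht
    unfold wD
    rw [if_pos ht]
  rcases Nat.lt_or_ge (i + 3) m with h | h
  · rw [if_pos h, hin i (by omega), hin (i + 1) (by omega)]
    rcases Nat.eq_zero_or_pos i with h0 | h0
    · subst h0
      rw [if_pos rfl]
      push_cast
      ring
    · rw [if_neg (by omega), hin (i - 1) (by omega)]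
      push_cast [show 1 ≤ i by omega]
      ring
  · rw [if_neg (by omega)]
    rcases Nat.lt_or_ge m (i + 3) with h1 | h1
    · rw [if_neg (by omega), wD_leaf (show m ≤ i + 2 by omega)]
      by_cases h3 : 3 ≤ m
      · rw [if_pos h3, hin (m - 3) (by omega)]
        push_cast [h3]
        ring
      · rw [if_neg h3]
        have h4 : m = 2 := by omega
        subst h4
        norm_num
    · have h2 : i + 3 = m := by omega
      rw [if_pos h2, lf2, lf1, hin i (by omega)]
      have hiZ : (i : ℤ) = m - 3 := by
        have : (i : ℤ) + 3 = m := by exact_mod_cast h2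
        linarith
      rcases Nat.eq_zero_or_pos i with h0 | h0
      · rw [if_pos h0, hiZ]
        have h4 : (m : ℤ) = 3 := by rw [h0] at hiZ; push_cast at hiZ; linarith
        rw [h4]
        norm_num
      · rw [if_neg (by omega), hin (i - 1) (by omega)]
        push_cast [show 1 ≤ i by omega]
        rw [hiZ]
        ring

theorem PD_AD (hm : 2 ≤ m) : PD (AD m) := by
  constructor
  · intro i j
    simp only [AD]
    exact Finset.sum_congr rfl fun k _ => mul_comm _ _
  · intro x hx
    have h1 : ∑ i, x i * ∑ j, (AD m i j : ℚ) * x j = ∑ k, co x k ^ 2 := by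
      have h2 : ∀ i, ∑ j, (AD m i j : ℚ) * x j = ∑ k, (bt i k : ℚ) * co x k := by
        intro i
        have h3 := congrFun (cart_AD x) i
        rw [al_eq] at h3
        exact h3
      simp only [h2, Finset.mul_sum]
      rw [Finset.sum_comm]
      apply Finset.sum_congr rfl
      intro k _
      have h3 : co x k * co x k = ∑ i, ((bt i k : ℚ) * x i) * co x k := by
        rw [← Finset.sum_mul]
        rfl
      rw [pow_two, h3]
      exact Finset.sum_congr rfl fun i _ => by ring
    rw [h1]
    apply lt_of_le_of_ne (Finset.sum_nonneg fun k _ => sq_nonneg _)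
    intro h0
    apply hx
    have h2 : ∀ k, co x k = 0 := by
      intro k
      have h3 := (Finset.sum_eq_zero_iff_of_nonneg fun k _ => sq_nonneg (co x k)).mp h0.symm k
        (Finset.mem_univ k)
      exact pow_eq_zero_iff (two_ne_zero) |>.mp h3
    let u : ℕ → ℚ := fun j => if h : j < m then x ⟨j, h⟩ else 0
    have hu : x = fun j : Fin m => u j := by
      ext j
      simp [u, j.2]
    rw [hu] at h2
    have h3 : ∀ k : ℕ, ∀ hk : k < m, (if k + 1 < m then u k else 0) -
        (if k = 0 then 0 else u (k - 1)) + (if m ≤ k + 2 then u (m - 1) else 0) = 0 := by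
      intro k hk
      have h4 := h2 ⟨k, hk⟩
      rw [co_eq hm] at h4
      exact h4
    have h4 : ∀ k : ℕ, k + 2 < m → u k = 0 := by
      intro k
      induction k with
      | zero =>
        intro hk
        have h5 := h3 0 (by omega)
        rw [if_pos (by omega), if_pos rfl, if_neg (by omega)] at h5
        linarith
      | succ k ih =>
        intro hk
        have h5 := h3 (k + 1) (by omega)
        rw [if_pos (by omega), if_neg (by omega), if_neg (by omega), Nat.add_sub_cancel,
          ih (by omega)] at h5
        linarith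
    have h5 := h3 (m - 2) (by omega)
    have h6 := h3 (m - 1) (by omega)
    rw [if_pos (show m - 2 + 1 < m by omega), if_pos (show m ≤ m - 2 + 2 by omega)] at h5
    rw [if_neg (show ¬ m - 1 + 1 < m by omega), if_neg (show ¬ m - 1 = 0 by omega),
      if_pos (show m ≤ m - 1 + 2 by omega), show m - 1 - 1 = m - 2 by omega] at h6
    have h7 : (if m - 2 = 0 then 0 else u (m - 2 - 1)) = 0 := by
      split_ifs with h
      · rfl
      · exact h4 _ (by omega)
    rw [h7] at h5
    have h8 : u (m - 2) = 0 := by linarith
    have h9 : u (m - 1) = 0 := by linarith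
    ext j
    rw [hu]
    have hj := j.2
    change u j = 0
    by_cases h10 : (j : ℕ) + 2 < m
    · exact h4 j h10
    · have h11 : (j : ℕ) = m - 2 ∨ (j : ℕ) = m - 1 := by omega
      rcases h11 with h | h <;> rw [h] <;> assumption

end MTC
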