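import Mathlib

/-!
# Graded Lie algebras of matrices: the radical of the trace form
-/

set_option autoImplicit false
set_option linter.unusedSectionVars false

namespace MTC

variable {K : Type} [Field K] {J : Type} [Fintype J] [DecidableEq J]

/-- the bracket -/
def bk (X Y : Matrix J J K) : Matrix J J K := X * Y - Y * X

theorem bk_neg (X Y : Matrix J J K) : bk X Y = -bk Y X := by
  rw [bk, bk, neg_sub]

theorem bk_add (X Y Z : Matrix J J K) : bk X (Y + Z) = bk X Y + bk X Z := by
  rw [bk, bk, bk, mul_add, add_mul]; abel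

theorem add_bk (X Y Z : Matrix J J K) : bk (X + Y) Z = bk X Z + bk Y Z := by
  rw [bk, bk, bk, mul_add, add_mul]; abel

theorem bk_smul (c : K) (X Y : Matrix J J K) : bk X (c • Y) = c • bk X Y := by
  rw [bk, bk, mul_smul_comm, smul_mul_assoc, smul_sub]

theorem smul_bk (c : K) (X Y : Matrix J J K) : bk (c • X) Y = c • bk X Y := by
  rw [bk, bk, mul_smul_comm, smul_mul_assoc, smul_sub]

/-- the grading element -/
def dg (deg : J → ℤ) : Matrix J J K := Matrix.diagonal fun i => (deg i : K)

/-- the part of degree `k` -/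
def part (deg : J → ℤ) (k : ℤ) (X : Matrix J J K) : Matrix J J K :=
  Matrix.of fun i j => if deg i - deg j = k then X i j else 0

/-- homogeneous of degree `k` -/
def Hom (deg : J → ℤ) (k : ℤ) (X : Matrix J J K) : Prop :=
  ∀ i j, deg i - deg j ≠ k → X i j = 0

theorem hom_part (deg : J → ℤ) (k : ℤ) (X : Matrix J J K) : Hom deg k (part deg k X) := by
  intro i j h
  simp [part, h]

theorem part_of_hom {deg : J → ℤ} {k : ℤ} {X : Matrix J J K} (h : Hom deg k X) :
    part deg k X = X := by
  ext i j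
  simp only [part, Matrix.of_apply]
  split_ifs with h1
  · rfl
  · exact (h i j h1).symm

theorem hom_add {deg : J → ℤ} {k : ℤ} {X Y : Matrix J J K} (hX : Hom deg k X)
    (hY : Hom deg k Y) : Hom deg k (X + Y) := by
  intro i j h
  rw [Matrix.add_apply, hX i j h, hY i j h, add_zero]

theorem hom_sub {deg : J → ℤ} {k : ℤ} {X Y : Matrix J J K} (hX : Hom deg k X)
    (hY : Hom deg k Y) : Hom deg k (X - Y) := by
  intro i j h
  rw [Matrix.sub_apply, hX i j h, hY i j h, sub_zero]

theorem hom_smul {deg : J → ℤ} {k : ℤ} {X : Matrix J J K} (c : K) (hX : Hom deg k X) :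
    Hom deg k (c • X) := by
  intro i j h
  rw [Matrix.smul_apply, hX i j h, smul_zero]

theorem hom_mul {deg : J → ℤ} {k l : ℤ} {X Y : Matrix J J K} (hX : Hom deg k X)
    (hY : Hom deg l Y) : Hom deg (k + l) (X * Y) := by
  intro i j h
  rw [Matrix.mul_apply]
  apply Finset.sum_eq_zero
  intro a _
  by_cases h1 : deg i - deg a = k
  · rw [hY a j (by intro h2; apply h; omega), mul_zero]
  · rw [hX i a h1, zero_mul]

theorem hom_bk {deg : J → ℤ} {k l : ℤ} {X Y : Matrix J J K} (hX : Hom deg k X)
    (hY : Hom deg l Y) : Hom deg (k + l) (bk X Y) := by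
  apply hom_sub (hom_mul hX hY)
  rw [add_comm]
  exact hom_mul hY hX

theorem bk_dg (deg : J → ℤ) (X : Matrix J J K) (i j : J) :
    bk (dg deg) X i j = ((deg i : K) - (deg j : K)) * X i j := by
  rw [bk, Matrix.sub_apply, dg, Matrix.diagonal_mul, Matrix.mul_diagonal]
  ring

theorem poly_mem {g : Submodule K (Matrix J J K)} {deg : J → ℤ}
    (h : ∀ X ∈ g, bk (dg deg) X ∈ g) (p : Polynomial K) :
    ∀ X ∈ g, (Matrix.of fun i j => p.eval ((deg i : K) - (deg j : K)) * X i j :
      Matrix J J K) ∈ g := by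
  induction p using Polynomial.induction_on' with
  | add p q hp hq =>
    intro X hX
    have h1 := g.add_mem (hp X hX) (hq X hX)
    convert h1 using 1
    ext i j
    simp only [Matrix.of_apply, Matrix.add_apply, Polynomial.eval_add]
    ring
  | monomial n c =>
    induction n with
    | zero =>
      intro X hX
      have h1 := g.smul_mem c hX
      convert h1 using 1
      ext i j
      simp only [Matrix.of_apply, Matrix.smul_apply, smul_eq_mul, Polynomial.eval_monomial,
        pow_zero, mul_one]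
    | succ n ih =>
      intro X hX
      have h1 := h _ (ih X hX)
      convert h1 using 1
      ext i j
      rw [bk_dg]
      simp only [Matrix.of_apply, Polynomial.eval_monomial, pow_succ]
      ring

theorem part_mem [CharZero K] {g : Submodule K (Matrix J J K)} {deg : J → ℤ}
    (h : ∀ X ∈ g, bk (dg deg) X ∈ g) (k : ℤ) : ∀ X ∈ g, part deg k X ∈ g := by
  intro X hX
  let p : Polynomial K := ∏ t ∈ (Finset.univ.image fun ij : J × J => deg ij.1 - deg ij.2).erase k,
    (Polynomial.C (((k : K) - (t : K))⁻¹) * (Polynomial.X - Polynomial.C (t : K)))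
  have h1 := poly_mem h p X hX
  convert h1 using 1
  ext i j
  simp only [Matrix.of_apply, part]
  simp only [p, Polynomial.eval_prod, Polynomial.eval_mul, Polynomial.eval_C, Polynomial.eval_sub,
    Polynomial.eval_X]
  split_ifs with hk
  · have h3 : ∏ t ∈ (Finset.univ.image fun ij : J × J => deg ij.1 - deg ij.2).erase k,
        (((k : K) - (t : K))⁻¹ * (((deg i : K) - (deg j : K)) - (t : K))) = 1 := by
      apply Finset.prod_eq_one
      intro t ht
      have ht' := Finset.ne_of_mem_erase ht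
      have h2 : (deg i : K) - (deg j : K) = (k : K) := by
        rw [← hk]; push_cast; ring
      rw [h2]
      apply inv_mul_cancel₀
      rw [sub_ne_zero]
      exact_mod_cast ht'.symm
    rw [h3, one_mul]
  · symm
    apply mul_eq_zero_of_left
    apply Finset.prod_eq_zero (i := deg i - deg j)
    · rw [Finset.mem_erase]
      exact ⟨hk, Finset.mem_image.mpr ⟨(i, j), Finset.mem_univ _, rfl⟩⟩
    · push_cast
      ring

/-- a matrix is the sum of its parts -/
theorem sum_part (deg : J → ℤ) (X : Matrix J J K) :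
    X = ∑ k ∈ Finset.univ.image (fun ij : J × J => deg ij.1 - deg ij.2), part deg k X := by
  ext i j
  rw [Matrix.sum_apply, Finset.sum_eq_single (deg i - deg j)]
  · simp [part]
  · intro k _ hk
    simp only [part, Matrix.of_apply]
    rw [if_neg (fun h => hk h.symm)]
  · intro h
    exact absurd (Finset.mem_image.mpr ⟨(i, j), Finset.mem_univ _, rfl⟩) h

/-- the radical of the trace form -/
def rad (g : Submodule K (Matrix J J K)) : Submodule K (Matrix J J K) where
  carrier := {X | X ∈ g ∧ ∀ Y ∈ g, (X * Y).trace = 0}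
  add_mem' := by
    rintro X X' ⟨h1, h2⟩ ⟨h3, h4⟩
    refine ⟨g.add_mem h1 h3, fun Y hY => ?_⟩
    rw [add_mul, Matrix.trace_add, h2 Y hY, h4 Y hY, add_zero]
  zero_mem' := ⟨g.zero_mem, fun Y _ => by rw [zero_mul, Matrix.trace_zero]⟩
  smul_mem' := by
    rintro c X ⟨h1, h2⟩
    refine ⟨g.smul_mem c h1, fun Y hY => ?_⟩
    rw [smul_mul_assoc, Matrix.trace_smul, h2 Y hY, smul_zero]

theorem rad_bk {g : Submodule K (Matrix J J K)} (hbr : ∀ X ∈ g, ∀ Y ∈ g, bk X Y ∈ g) :
    ∀ Y ∈ g, ∀ X ∈ rad g, bk Y X ∈ rad g := by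
  rintro Y hY X ⟨hX, hX'⟩
  refine ⟨hbr Y hY X hX, fun Z hZ => ?_⟩
  have h1 := hX' _ (hbr Z hZ Y hY)
  rw [bk] at h1 ⊢
  rw [mul_sub, Matrix.trace_sub] at h1
  rw [sub_mul, Matrix.trace_sub, ← h1]
  congr 1
  · rw [mul_assoc, Matrix.trace_mul_comm, mul_assoc]
  · rw [mul_assoc]

/-- the hypotheses -/
structure Std (deg : J → ℤ) (top : J) (N : Matrix J J K) (g : Submodule K (Matrix J J K)) :
    Prop where
  br : ∀ X ∈ g, ∀ Y ∈ g, bk X Y ∈ g
  hN : N ∈ g
  homN : Hom deg 1 N
  hD : dg deg ∈ g
  top_le : ∀ i, i ≠ top → deg i < deg top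
  gen : ∀ U : Submodule K (J → K), (∀ X ∈ g, ∀ v ∈ U, X.mulVec v ∈ U) → Pi.single top 1 ∈ U →
    U = ⊤
  tr : ∀ X ∈ g, X.trace = 0
  inj : ∀ k : ℤ, k < 0 → ∀ X : Matrix J J K, Hom deg k X → bk N X = 0 → X = 0

theorem hom_top {deg : J → ℤ} {top : J} (ht : ∀ i, i ≠ top → deg i < deg top) {k : ℤ}
    {X : Matrix J J K} (h : Hom deg k X) (hk : 0 ≤ k) :
    X.mulVec (Pi.single top 1) = (if k = 0 then X top top else 0) • (Pi.single top 1 : J → K) := by
  ext i
  rw [Matrix.mulVec_single_one, Pi.smul_apply, smul_eq_mul]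
  change X i top = _
  by_cases hi : i = top
  · subst hi
    rw [Pi.single_eq_same, mul_one]
    split_ifs with h0
    · rfl
    · exact h _ _ (by omega)
  · rw [Pi.single_eq_of_ne hi, mul_zero]
    apply h
    have := ht i hi
    omega

/-- a subspace which contains the top vector and is stable under the elements of negative degree
is everything -/
theorem stable_top [CharZero K] {deg : J → ℤ} {top : J} {N : Matrix J J K}
    {g : Submodule K (Matrix J J K)} (S : Std deg top N g)
    (U : Submodule K (J → K)) (hv : Pi.single top 1 ∈ U)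
    (hU : ∀ (k : ℤ) (X : Matrix J J K), k < 0 → Hom deg k X → X ∈ g → ∀ u ∈ U,
      X.mulVec u ∈ U) : U = ⊤ := by
  have hadx : ∀ X ∈ g, bk (dg deg) X ∈ g := fun X hX => S.br _ S.hD X hX
  let P : Submodule K (J → K) → Prop := fun V => Pi.single top 1 ∈ V ∧
    ∀ (k : ℤ) (X : Matrix J J K), k < 0 → Hom deg k X → X ∈ g → ∀ u ∈ V, X.mulVec u ∈ V
  let U0 : Submodule K (J → K) := sInf {V | P V}
  have hU0 : P U0 := by
    constructor
    · rw [Submodule.mem_sInf]
      exact fun V hV => hV.1
    · intro j b hj hb hbg u hu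
      rw [Submodule.mem_sInf] at hu ⊢
      exact fun V hV => hV.2 j b hj hb hbg u (hu V hV)
  let U1 : Submodule K (J → K) :=
    { carrier := {u | u ∈ U0 ∧ ∀ X ∈ g, X.mulVec u ∈ U0}
      add_mem' := by
        rintro u u' ⟨h1, h2⟩ ⟨h3, h4⟩
        exact ⟨U0.add_mem h1 h3, fun X hX => by
          rw [Matrix.mulVec_add]; exact U0.add_mem (h2 X hX) (h4 X hX)⟩
      zero_mem' := ⟨U0.zero_mem, fun X _ => by rw [Matrix.mulVec_zero]; exact U0.zero_mem⟩
      smul_mem' := by
        rintro c u ⟨h1, h2⟩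
        exact ⟨U0.smul_mem c h1, fun X hX => by
          rw [Matrix.mulVec_smul]; exact U0.smul_mem c (h2 X hX)⟩ }
  have hU1 : P U1 := by
    constructor
    · refine ⟨hU0.1, fun X hX => ?_⟩
      rw [sum_part deg X, Matrix.sum_mulVec]
      refine U0.sum_mem fun k _ => ?_
      rcases lt_or_ge k 0 with hk | hk
      · exact hU0.2 k _ hk (hom_part deg k X) (part_mem hadx k X hX) _ hU0.1
      · rw [hom_top S.top_le (hom_part deg k X) hk]
        exact U0.smul_mem _ hU0.1
    · rintro k b hk hb hbg u ⟨hu1, hu2⟩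
      refine ⟨hU0.2 k b hk hb hbg u hu1, fun X hX => ?_⟩
      have h1 : X.mulVec (b.mulVec u) = b.mulVec (X.mulVec u) + (bk X b).mulVec u := by
        rw [bk, Matrix.mulVec_mulVec, Matrix.mulVec_mulVec, Matrix.sub_mulVec]
        abel
      rw [h1]
      exact U0.add_mem (hU0.2 k b hk hb hbg _ (hu2 X hX)) (hu2 _ (S.br X hX _ hbg))
  have h01 : U0 ≤ U1 := sInf_le hU1
  have hst : ∀ X ∈ g, ∀ v ∈ U0, X.mulVec v ∈ U0 := fun X hX v hv => (h01 hv).2 X hX
  have hle : U0 ≤ U := sInf_le ⟨hv, hU⟩
  have h := S.gen U0 hst hU0.1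
  rw [eq_top_iff, ← h]
  exact hle

/-- if the radical is zero in degree `-1`, it is zero -/
theorem rad_zero [CharZero K] {deg : J → ℤ} {top : J} {N : Matrix J J K}
    {g : Submodule K (Matrix J J K)} (S : Std deg top N g)
    (h1 : ∀ X ∈ rad g, Hom deg (-1) X → X = 0) : ∀ X ∈ rad g, X = 0 := by
  have hadx : ∀ X ∈ rad g, bk (dg deg) X ∈ rad g := fun X hX => rad_bk S.br _ S.hD X hX
  have hneg : ∀ k : ℕ, ∀ X ∈ rad g, Hom deg (-(k : ℤ) - 1) X → X = 0 := by
    intro k
    induction k with
    | zero =>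
      intro X hX hX1
      exact h1 X hX (by simpa using hX1)
    | succ k ih =>
      intro X hX hX1
      apply S.inj (-((k + 1 : ℕ) : ℤ) - 1) (by push_cast; omega) X hX1
      apply ih _ (rad_bk S.br _ S.hN X hX)
      have h2 := hom_bk S.homN hX1
      have h3 : (1 : ℤ) + (-((k + 1 : ℕ) : ℤ) - 1) = -(k : ℤ) - 1 := by push_cast; ring
      rwa [h3] at h2
  have hneg' : ∀ k : ℤ, k < 0 → ∀ X ∈ rad g, Hom deg k X → X = 0 := by
    intro k hk X hX hXk
    apply hneg (-k - 1).toNat X hX
    have h3 : -(((-k - 1).toNat : ℕ) : ℤ) - 1 = k := by omega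
    rwa [h3]
  have hpos : ∀ k : ℕ, ∀ X ∈ rad g, Hom deg (k : ℤ) X → X = 0 := by
    intro k
    induction k using Nat.strong_induction_on with
    | _ k ih =>
      intro X hX hXk
      have hcomm : ∀ (l : ℤ) (Y : Matrix J J K), l < 0 → Hom deg l Y → Y ∈ g → bk Y X = 0 := by
        intro l Y hl hY hYg
        have h2 := rad_bk S.br _ hYg X hX
        have h3 := hom_bk hY hXk
        rcases lt_or_ge (l + k) 0 with h4 | h4
        · exact hneg' _ h4 _ h2 h3
        · have h5 : (((l + k).toNat : ℕ) : ℤ) = l + k := Int.toNat_of_nonneg h4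
          rw [← h5] at h3
          exact ih (l + k).toNat (by omega) _ h2 h3
      set c : K := if (k : ℤ) = 0 then X top top else 0 with hc
      let U : Submodule K (J → K) := LinearMap.ker (Matrix.mulVecLin (X - c • 1))
      have hUmem : ∀ u, u ∈ U ↔ X.mulVec u = c • u := by
        intro u
        rw [LinearMap.mem_ker, Matrix.mulVecLin_apply, Matrix.sub_mulVec, Matrix.smul_mulVec,
          Matrix.one_mulVec, sub_eq_zero]
      have hUtop : U = ⊤ := by
        apply stable_top S
        · rw [hUmem, hom_top S.top_le hXk (by positivity)]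
        · intro l Y hl hY hYg u hu
          rw [hUmem] at hu ⊢
          have h2 := hcomm l Y hl hY hYg
          rw [bk, sub_eq_zero] at h2
          rw [Matrix.mulVec_mulVec, ← h2, ← Matrix.mulVec_mulVec, hu, Matrix.mulVec_smul]
      have hscal : X = c • 1 := by
        rw [← sub_eq_zero]
        have h2 : Matrix.mulVecLin (X - c • 1) = 0 := LinearMap.ker_eq_top.mp hUtop
        have h3 : Matrix.toLin' (X - c • 1) = 0 := by
          rw [Matrix.toLin'_apply']
          exact h2
        exact (LinearEquiv.map_eq_zero_iff Matrix.toLin').mp h3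
      have h2 := S.tr X hX.1
      rw [hscal, Matrix.trace_smul, Matrix.trace_one, smul_eq_mul] at h2
      have h3 : ((Fintype.card J : ℕ) : K) ≠ 0 := by
        have : 0 < Fintype.card J := Fintype.card_pos_iff.mpr ⟨top⟩
        exact_mod_cast this.ne'
      rcases mul_eq_zero.mp h2 with h | h
      · rw [hscal, h, zero_smul]
      · exact absurd h h3
  intro X hX
  rw [sum_part deg X]
  apply Finset.sum_eq_zero
  intro k _
  have h2 := part_mem hadx k X hX
  rcases lt_or_ge k 0 with hk | hk
  · exact hneg' k hk _ h2 (hom_part deg k X)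
  · apply hpos k.toNat _ h2
    rw [Int.toNat_of_nonneg hk]
    exact hom_part deg k X

end MTC
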